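import Pool.Agent.Helper10.JET.Lab

/-! Corners with one unit direction: SPAN for the derivative of highest order. -/

set_option autoImplicit false

namespace Pool.Agent.Helper10.JET

open Finset Filter Topology Pool.Agent.Helper69.RK Pool.Agent.Helper31.EC Pool.Agent.Helper31.EC.Sp
open Pool.Agent.Helper31.EC.QS Pool.Agent.Helper57.TA Pool.Agent.Helper5.DO

noncomputable section

variable {S : Sp} {ι : Type}

/-- SPAN (algebraic form): a linear relation with coefficients known to the point which holds for all types is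
trivial -/
def SPN {d : ℕ} (a : ι → Fin d → QS S) (O : S.L) (r : ℝ) : Prop :=
  ∀ c : Fin (d + 1) → QS S, vd c 1 ≤ O → (∀ i, c 0 + ∑ k, c k.succ * a i k ∈ Id S r) → ∀ j, c j ∈ Id S r

/-- restriction of polynomials -/
theorem PU_rest (E : ∀ k, (S.F k).Ω → Prop) (hE : 0 < ul (S.pr E)) {A : S.L} {p : Polynomial (QS S)} (hp : p ∈ PU A) :
    p.map (QS.rest E hE) ∈ PU (restL E hE A) := by
  intro m
  rw [Polynomial.coeff_map, QS.rest_dg]
  exact restL_mono E hE (hp m)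

theorem tc_rest (E : ∀ k, (S.F k).Ω → Prop) (hE : 0 < ul (S.pr E)) (p : Polynomial (QS S)) (t : QS S) (m : ℕ) :
    tc (p.map (QS.rest E hE)) (QS.rest E hE t) m = QS.rest E hE (tc p t m) := by
  have h1 : ∀ (T : Sp) (q : Polynomial (QS T)) (x : QS T), tc q x m = (Polynomial.taylor x q).coeff m := by
    intro T q x
    rw [Polynomial.taylor_coeff]
    rfl
  rw [h1, h1, ← Polynomial.map_taylor, Polynomial.coeff_map]

/-- **SPAN.** `P i` = the polynomial of `y` along the curve of type `i`; up to the level `κ`: all derivatives of order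
`< K` are known to the point and common to the types, those of order `> K` are zero; no labels on events; no relations
between `t, y` on events. Then a relation `c0 + c1 a_i = 0` of level `r ≤ κ`, `a_i` the derivative of order `K`, is
trivial. -/
theorem spn_one [Nonempty ι] {O : S.L} {ξ : ι → S.L} (hL : NLE O ξ) (P : ι → Polynomial (QS S))
    (hP : ∀ i, P i ∈ PU (ξ i)) {t y : QS S} (hy : ∀ i, (P i).eval t = y) (ht : dg t 1 ≤ O) {K D : ℕ} (hKD : 1 ≤ D)
    (hD : ∀ i, (P i).natDegree ≤ D) {κ : ℝ} (hκ0 : 0 < κ) (hκ1 : κ ≤ 1)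
    (hdeg : ∀ i l, K < l → tc (P i) t l ∈ Id S κ)
    (hF : ∀ i l, l < K → dg (tc (P i) t l) κ ≤ O) (hFF : ∀ i i' l, l < K → tc (P i) t l - tc (P i') t l ∈ Id S κ)
    (hN : ∀ (E : ∀ k, (S.F k).Ω → Prop) (hE : 0 < ul (S.pr E)) (ρ : ℝ), 0 < ρ → ρ ≤ κ →
      NR D ![QS.rest E hE t, QS.rest E hE y] ⊥ ρ)
    {r : ℝ} (hr : r ≤ 1) {c0 c1 : QS S} (h0 : dg c0 1 ≤ O) (h1 : dg c1 1 ≤ O)
    (hc : ∀ i, c0 + c1 * tc (P i) t K ∈ Id S r) : c1 ∈ Id S r := by
  by_contra hcon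
  obtain ⟨δ1, E, hE, hδ10, hδ11, hrat1⟩ := exists_ratio hr hcon c0
  obtain ⟨δ, hδ⟩ : ∃ δ, δ = min δ1 κ := ⟨_, rfl⟩
  have hδ0 : 0 < δ := by rw [hδ]; exact lt_min hδ10 hκ0
  have hδκ : δ ≤ κ := by rw [hδ]; exact min_le_right _ _
  have hδδ : δ ≤ δ1 := by rw [hδ]; exact min_le_left _ _
  have hδ1 : δ ≤ 1 := hδκ.trans hκ1
  have hrat : ∀ i, dg (QS.rest E hE (tc (P i) t K)) δ ≤ restL E hE (dg c0 1 ⊔ dg c1 1) :=
    fun i => (QS.dg_mono _ hδδ).trans (hrat1 _ (hc i)).1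
  have hrat' : ∀ i i', QS.rest E hE (tc (P i) t K) - QS.rest E hE (tc (P i') t K) ∈ Id (S.rest E) δ :=
    fun i i' => Id_mono hδδ ((hrat1 _ (hc i)).2 _ (hc i'))
  have hOO : restL E hE (dg c0 1 ⊔ dg c1 1) ≤ restL E hE O := restL_mono E hE (sup_le h0 h1)
  obtain ⟨i0⟩ := ‹Nonempty ι›
  have hF' : ∀ i l, dg (tc ((P i).map (QS.rest E hE)) (QS.rest E hE t) l) δ ≤ restL E hE O := by
    intro i l
    rw [tc_rest]
    rcases lt_trichotomy l K with h2 | h2 | h2
    · refine (QS.dg_mono _ hδκ).trans ?_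
      rw [QS.rest_dg]
      exact restL_mono E hE (hF i l h2)
    · subst h2
      exact (hrat i).trans hOO
    · rw [dg_of_mem_Id (rest_mem_Id E hE hκ1 (hdeg i l h2)) hδκ hδ1]
      exact bot_le
  have hFF' : ∀ i i' l, tc ((P i).map (QS.rest E hE)) (QS.rest E hE t) l -
      tc ((P i').map (QS.rest E hE)) (QS.rest E hE t) l ∈ Id (S.rest E) δ := by
    intro i i' l
    rw [tc_rest, tc_rest]
    rcases lt_trichotomy l K with h2 | h2 | h2
    · rw [← map_sub]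
      exact Id_mono hδκ (rest_mem_Id E hE hκ1 (hFF i i' l h2))
    · subst h2
      exact hrat' i i'
    · exact (Id _ _).sub_mem (Id_mono hδκ (rest_mem_Id E hE hκ1 (hdeg i l h2)))
        (Id_mono hδκ (rest_mem_Id E hE hκ1 (hdeg i' l h2)))
  have : Nonempty ι := ⟨i0⟩
  obtain ⟨c, hc1, hc2⟩ := lab_poly (hL E hE) (fun i => (P i).map (QS.rest E hE)) (fun i => PU_rest E hE (hP i))
    hδ0.le hδ1 (t := QS.rest E hE t) (by
      refine (QS.dg_mono _ hδ1).trans ?_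
      rw [QS.rest_dg]
      exact restL_mono E hE ht) hF' hFF' (D := D) (fun i => (Polynomial.natDegree_map_le).trans (hD i)) i0
  rw [Polynomial.eval_map_apply, hy i0] at hc2
  exact no_lab_poly hδ0 hKD (hN E hE δ hδ0 hδκ) c hc1 hc2

/-- SPAN in the form of the prolongation: `u` times the derivative of order `K`, `u` a unit known to the point -/
theorem spn_vel [Nonempty ι] {O : S.L} {ξ : ι → S.L} (hL : NLE O ξ) (P : ι → Polynomial (QS S))
    (hP : ∀ i, P i ∈ PU (ξ i)) {t y : QS S} (hy : ∀ i, (P i).eval t = y) (ht : dg t 1 ≤ O) {K D : ℕ} (hKD : 1 ≤ D)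
    (hD : ∀ i, (P i).natDegree ≤ D) {κ : ℝ} (hκ0 : 0 < κ) (hκ1 : κ ≤ 1)
    (hdeg : ∀ i l, K < l → tc (P i) t l ∈ Id S κ)
    (hF : ∀ i l, l < K → dg (tc (P i) t l) κ ≤ O) (hFF : ∀ i i' l, l < K → tc (P i) t l - tc (P i') t l ∈ Id S κ)
    (hN : ∀ (E : ∀ k, (S.F k).Ω → Prop) (hE : 0 < ul (S.pr E)) (ρ : ℝ), 0 < ρ → ρ ≤ κ →
      NR D ![QS.rest E hE t, QS.rest E hE y] ⊥ ρ)
    {r : ℝ} (hr : r ≤ 1) {u : QS S} (hu : IsUnit u) (huk : dg u 1 ≤ O) :
    SPN (fun i (_ : Fin 1) => u * tc (P i) t K) O r := by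
  intro c hc h0
  have h1 : ∀ j, dg (c j) 1 ≤ O := fun j => (dg_le_vd c 1 j).trans hc
  have h2 : ∀ i, c 0 + c 1 * u * tc (P i) t K ∈ Id S r := by
    intro i
    have h3 := h0 i
    rw [Fin.sum_univ_one] at h3
    have e : c (Fin.succ 0) * (u * tc (P i) t K) = c 1 * u * tc (P i) t K := by
      rw [Fin.succ_zero_eq_one, mul_assoc]
    rwa [e] at h3
  have h3 := spn_one hL P hP hy ht hKD hD hκ0 hκ1 hdeg hF hFF hN hr (h1 0)
    ((Kn S 1 le_rfl O).mul_mem (h1 1) huk) h2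
  have h4 : c 1 ∈ Id S r := by
    rw [mul_comm] at h3
    exact mem_Id_of_unit_mul hu h3
  intro j
  obtain ⟨i0⟩ := ‹Nonempty ι›
  fin_cases j
  · have h5 := (Id S r).sub_mem (h2 i0) ((Id S r).mul_mem_right (u * tc (P i0) t K) h4)
    have e : c 0 + c 1 * u * tc (P i0) t K - c 1 * (u * tc (P i0) t K) = c 0 := by ring
    rwa [e] at h5
  · exact h4

end

end Pool.Agent.Helper10.JET
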