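import Pool.Agent.Helper10.JET.Far

/-! Corners with one unit direction: jets from SCALED frames. In a box of scale `s` with centre `t0`, time
`t = t0 + 2^(-s n) τ`, the lowest coordinate is `F(τ)` up to the level `ρ = w s`, where `F` is known to the box: then
the derivatives of order `m` along the curves are known to the point and common to the types up to the level
`ρ - m s`. -/

set_option autoImplicit false

namespace Pool.Agent.Helper10.JET

open Finset Filter Topology Pool.Agent.Helper69.RK Pool.Agent.Helper31.EC Pool.Agent.Helper31.EC.Sp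
open Pool.Agent.Helper31.EC.QS Pool.Agent.Helper57.TA Pool.Agent.Helper5.DO

noncomputable section

variable {S : Sp} {ι : Type}

/-- digits of a function from the digits of the scaled function -/
theorem dg_le_sc_mul {u r : ℝ} (hu : 0 ≤ u) (hr : r ≤ 1) (f : QS S) : dg f (r - u) ≤ dg (sc S u * f) r := by
  obtain ⟨f, rfl⟩ := mk_surj f
  unfold sc
  rw [← map_mul, dg_mk _ hr, dg_mk _ (by linarith)]
  apply TR_dg_le_dg _ _ _ _ (fun _ _ => True) Typ_true (fun _ => 1) (S.Sub_const zero_le_one)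
  refine Eventually.of_forall fun k ω ω' _ _ _ _ _ e => ?_
  rw [TR.ev_mul, TR.ev_mul, ev_scT hu, ev_scT hu, ← mul_sub, abs_mul, abs_of_pos (S.dl_pos _ _)] at e
  have h1 : S.dl r k = S.dl u k * S.dl (r - u) k := by
    rw [← S.dl_add]; congr 1; ring
  rw [h1] at e
  rw [one_mul]
  exact le_of_mul_le_mul_left e (S.dl_pos _ _)

/-- digits of a quotient by a scale -/
theorem dg_le_of_sc {u ρ : ℝ} (hu : 0 ≤ u) (hρ : ρ ≤ 1) {x g : QS S} (h : sc S u * x - g ∈ Id S ρ) :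
    dg x (ρ - u) ≤ dg g ρ := by
  refine (dg_le_sc_mul hu hρ x).trans ?_
  rw [dg_eq_of_sub_mem h le_rfl hρ]

/-- the coefficients of a polynomial with known coefficients which is small at a variable with full first digits -/
theorem poly_top {g : Polynomial (QS S)} {A : S.L} (hg : g ∈ PU A) {x : QS S} {ℓ : ℝ} (hℓ : 0 < ℓ) (hℓ1 : ℓ ≤ 1)
    (hx : ℓ ≤ h (dg x ℓ) A) {r : ℝ} (hr : r ≤ 1) (h0 : g.eval x ∈ Id S r) (m : ℕ) : g.coeff m ∈ Id S r := by
  by_cases hm : m ≤ g.natDegree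
  · obtain ⟨c, hc⟩ : ∃ c : Fin (g.natDegree + 1) → QS S, c = fun a : Fin (g.natDegree + 1) => g.coeff (a : ℕ) :=
      ⟨_, rfl⟩
    have hce : pe c x = g.eval x := by
      unfold pe
      rw [Polynomial.eval_eq_sum_range, Finset.sum_range, hc]
    have hck : vd c 1 ≤ A := by
      rw [vd_le, hc]
      exact fun a => hg a
    have h1 : h (dg x ℓ) (vd c 1) = ℓ := by
      apply le_antisymm
      · exact (h_le_H _ _).trans (H_dg_le x hℓ.le)
      · exact hx.trans (h_anti hck)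
    have h2 := top_zero c x hℓ hℓ1 h1 hr (by rw [hce]; exact h0) ⟨m, Nat.lt_succ_of_le hm⟩
    rw [hc] at h2
    exact h2
  · rw [Polynomial.coeff_eq_zero_of_natDegree_lt (by omega)]
    exact (Id S _).zero_mem

/-- **NEAR WINDOWS, SCALED.** -/
theorem near_sc {A : S.L} {P F : Polynomial (QS S)} (hP : P ∈ PU A) (hF : F ∈ PU A) {t0 τ : QS S}
    (ht0 : dg t0 1 ≤ A) {s : ℝ} (hs : 0 ≤ s) {ℓ : ℝ} (hℓ : 0 < ℓ) (hℓ1 : ℓ ≤ 1) (hτ : ℓ ≤ h (dg τ ℓ) A)
    {ρ : ℝ} (hρ : ρ ≤ 1) (h0 : P.eval (t0 + sc S s * τ) - F.eval τ ∈ Id S ρ) (m : ℕ) :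
    sc S (m * s) * tc P t0 m - F.coeff m ∈ Id S ρ := by
  obtain ⟨G, hG⟩ : ∃ G : Polynomial (QS S), G = ∑ m ∈ Finset.range (P.natDegree + 1),
      Polynomial.monomial m (sc S (m * s) * tc P t0 m) := ⟨_, rfl⟩
  have hGc : ∀ m, G.coeff m = sc S (m * s) * tc P t0 m := by
    intro m
    rw [hG, Polynomial.finsetSum_coeff]
    simp only [Polynomial.coeff_monomial]
    rw [Finset.sum_ite_eq' (Finset.range (P.natDegree + 1)) m]
    split_ifs with h
    · rfl
    · have h1 : tc P t0 m = 0 := by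
        unfold tc
        rw [Polynomial.hasseDeriv_eq_zero_of_lt_natDegree, Polynomial.eval_zero]
        rw [Finset.mem_range] at h
        omega
      rw [h1, mul_zero]
  have hGk : G ∈ PU A := by
    intro m
    rw [hGc]
    refine (Kn S 1 le_rfl A).mul_mem ?_ (tc_known hP ht0 m)
    show dg (sc S (m * s)) 1 ≤ A
    rw [dg_sc]
    exact bot_le
  have hGe : G.eval τ = P.eval (t0 + sc S s * τ) := by
    rw [eval_tc P t0 _ le_rfl, hG, Polynomial.eval_finsetSum]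
    apply Finset.sum_congr rfl
    intro m _
    rw [Polynomial.eval_monomial, sc_nat_mul hs, mul_pow]
    ring
  have h1 : (G - F).eval τ ∈ Id S ρ := by
    rw [Polynomial.eval_sub, hGe]
    exact h0
  have h2 := poly_top ((PU A).sub_mem hGk hF) hℓ hℓ1 hτ hρ h1 m
  rwa [Polynomial.coeff_sub, hGc] at h2

/-- Taylor coefficients at a near point -/
theorem tc_shift (P : Polynomial (QS S)) (t0 : QS S) {s : ℝ} (hs : 0 ≤ s) (τ : QS S) (m : ℕ) :
    tc P (t0 + sc S s * τ) m = ∑ j ∈ Finset.range (P.natDegree + 1),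
      ((j + m).choose j : QS S) * τ ^ j * (sc S (j * s) * tc P t0 (j + m)) := by
  unfold tc
  have h2 : (Polynomial.hasseDeriv m P).eval (t0 + sc S s * τ) =
      (Polynomial.taylor t0 (Polynomial.hasseDeriv m P)).eval (sc S s * τ) := by
    rw [Polynomial.taylor_eval, add_comm]
  rw [h2, Polynomial.eval_eq_sum_range' (n := P.natDegree + 1) (by
    rw [Polynomial.natDegree_taylor]
    exact Nat.lt_succ_of_le ((Polynomial.natDegree_hasseDeriv_le _ _).trans (Nat.sub_le _ _)))]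
  apply Finset.sum_congr rfl
  intro j _
  rw [Polynomial.taylor_coeff]
  have h3 : Polynomial.hasseDeriv j (Polynomial.hasseDeriv m P) =
      ((j + m).choose j : Polynomial (QS S)) * Polynomial.hasseDeriv (j + m) P := by
    have h4 := DFunLike.congr_fun (Polynomial.hasseDeriv_comp (R := QS S) j m) P
    rw [LinearMap.comp_apply] at h4
    rw [h4]
    simp
  rw [h3, Polynomial.eval_mul, Polynomial.eval_natCast, mul_pow, sc_nat_mul hs]
  ring

/-- a SCALED BOX of scale `s`: centre `t0`, `t = t0 + 2^(-s n) τ`, `y = F(τ)` up to the level `ρ`, `F` and `t0` known to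
the box `β` -/
structure Sbx (S : Sp) (β : S.L) (t y : QS S) (s ρ : ℝ) where
  t0 : QS S
  τ : QS S
  F : Polynomial (QS S)
  kt0 : dg t0 1 ≤ β
  kF : F ∈ PU β
  pt : t = t0 + sc S s * τ
  fr : y - F.eval τ ∈ Id S ρ

namespace Sbx

variable {β : S.L} {t y : QS S} {s ρ : ℝ} (B : Sbx S β t y s ρ)

/-- the curve in a box -/
theorem coeff {ξ : S.L} {P : Polynomial (QS S)} (hP : P ∈ PU ξ) (hy : P.eval t = y) (hs : 0 ≤ s) {ℓ : ℝ}
    (hℓ : 0 < ℓ) (hℓ1 : ℓ ≤ 1) (hτ : ℓ ≤ h (dg B.τ ℓ) (ξ ⊔ β)) (hρ : ρ ≤ 1) (m : ℕ) :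
    sc S (m * s) * tc P B.t0 m - B.F.coeff m ∈ Id S ρ := by
  apply near_sc (A := ξ ⊔ β) (PU_mono le_sup_left hP) (PU_mono le_sup_right B.kF) (B.kt0.trans le_sup_right) hs hℓ
    hℓ1 hτ hρ
  rw [← B.pt, hy]
  exact B.fr

/-- derivatives along the curve are known to the point -/
theorem known {ξ O : S.L} {P : Polynomial (QS S)} (hP : P ∈ PU ξ) (hy : P.eval t = y) (hs : 0 ≤ s) {ℓ : ℝ}
    (hℓ : 0 < ℓ) (hℓ1 : ℓ ≤ 1) (hτ : ℓ ≤ h (dg B.τ ℓ) (ξ ⊔ β)) (hρ : ρ ≤ 1) (hβO : β ≤ O) {κ : ℝ} (m : ℕ)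
    (hκ : κ ≤ ρ - m * s) (hκ1 : κ ≤ 1) (hτO : dg B.τ κ ≤ O) : dg (tc P t m) κ ≤ O := by
  have h1 := fun j => B.coeff hP hy hs hℓ hℓ1 hτ hρ j
  rw [B.pt, tc_shift P B.t0 hs B.τ m]
  refine (Kn S κ hκ1 O).sum_mem fun j _ => ?_
  refine (Kn S κ hκ1 O).mul_mem ((Kn S κ hκ1 O).mul_mem (natCast_mem _ _) ((Kn S κ hκ1 O).pow_mem hτO j)) ?_
  show dg (sc S (j * s) * tc P B.t0 (j + m)) κ ≤ O
  have h2 := h1 (j + m)
  have e1 : sc S (((j + m : ℕ) : ℝ) * s) = sc S (m * s) * sc S (j * s) := by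
    rw [← sc_add (by positivity) (by positivity)]
    congr 1
    push_cast
    ring
  rw [e1, mul_assoc] at h2
  have h3 := dg_le_of_sc (S := S) (u := m * s) (by positivity) hρ h2
  exact ((QS.dg_mono _ hκ).trans h3).trans (((QS.dg_mono _ hρ).trans (B.kF _)).trans hβO)

/-- derivatives along the curves are common to the types -/
theorem common {ξ ξ' : S.L} {P P' : Polynomial (QS S)} (hP : P ∈ PU ξ) (hP' : P' ∈ PU ξ') (hy : P.eval t = y)
    (hy' : P'.eval t = y) (hs : 0 ≤ s) {ℓ : ℝ} (hℓ : 0 < ℓ) (hℓ1 : ℓ ≤ 1) (hτ : ℓ ≤ h (dg B.τ ℓ) (ξ ⊔ β))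
    (hτ' : ℓ ≤ h (dg B.τ ℓ) (ξ' ⊔ β)) (hρ : ρ ≤ 1) {κ : ℝ} (m : ℕ) (hκ : κ ≤ ρ - m * s) :
    tc P t m - tc P' t m ∈ Id S κ := by
  have h1 : ∀ j : ℕ, sc S (j * s) * tc (P - P') B.t0 j ∈ Id S ρ := by
    intro j
    have h2 := (Id S ρ).sub_mem (B.coeff hP hy hs hℓ hℓ1 hτ hρ j) (B.coeff hP' hy' hs hℓ hℓ1 hτ' hρ j)
    have e : sc S (j * s) * tc P B.t0 j - B.F.coeff j - (sc S (j * s) * tc P' B.t0 j - B.F.coeff j) =
        sc S (j * s) * (tc P B.t0 j - tc P' B.t0 j) := by ring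
    rw [e, ← tc_sub] at h2
    exact h2
  rw [← tc_sub, B.pt, tc_shift (P - P') B.t0 hs B.τ m]
  refine (Id S κ).sum_mem fun j _ => (Id S κ).mul_mem_left _ ?_
  have h2 := h1 (j + m)
  have e1 : sc S (((j + m : ℕ) : ℝ) * s) = sc S (m * s) * sc S (j * s) := by
    rw [← sc_add (by positivity) (by positivity)]
    congr 1
    push_cast
    ring
  rw [e1, mul_assoc] at h2
  exact Id_mono hκ (mem_of_sc_mul (by positivity) hρ h2)

theorem X_mem_PU (A : S.L) : (Polynomial.X : Polynomial (QS S)) ∈ PU A := by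
  intro m
  rw [Polynomial.coeff_X]
  split_ifs
  · exact (Kn S 1 le_rfl A).one_mem
  · exact (Kn S 1 le_rfl A).zero_mem

/-- unscaled boxes from scaled boxes and one curve -/
theorem bx {ξ : S.L} {P : Polynomial (QS S)} (hP : P ∈ PU ξ) (hy : P.eval t = y) (hs : 0 ≤ s) {ℓ : ℝ} (hℓ : 0 < ℓ)
    (hℓ1 : ℓ ≤ 1) (hτ : ℓ ≤ h (dg B.τ ℓ) (ξ ⊔ β)) (hρ : ρ ≤ 1) : Bx β t y ρ := by
  have h1 : ∀ m : ℕ, ∃ b : QS S, dg b 1 ≤ β ∧ sc S (m * s) * (tc P B.t0 m - b) ∈ Id S ρ := by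
    intro m
    have h2 := B.coeff hP hy hs hℓ hℓ1 hτ hρ m
    rcases le_or_gt 0 (ρ - m * s) with h3 | h3
    · have h4 : ρ - m * s ≤ 1 := by
        have : (0 : ℝ) ≤ m * s := by positivity
        linarith
      obtain ⟨b, hb, hb'⟩ := exists_round (tc P B.t0 m) h3 h4
      refine ⟨b, hb.trans ((dg_le_of_sc (by positivity) hρ h2).trans ((QS.dg_mono _ hρ).trans (B.kF m))), ?_⟩
      have h5 := sc_mul_mem (S := S) (u := m * s) (by positivity) hb'
      have e : (m : ℝ) * s + (ρ - m * s) = ρ := by ring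
      rwa [e] at h5
    · refine ⟨0, (Kn S 1 le_rfl β).zero_mem, ?_⟩
      rw [sub_zero]
      exact (Id S ρ).mul_mem_right _ (Id_mono (by linarith) (sc_mem (S := S) (by positivity)))
  choose b hb hb' using h1
  refine ⟨∑ m ∈ Finset.range (P.natDegree + 1), Polynomial.C (b m) * (Polynomial.X - Polynomial.C B.t0) ^ m, ?_, ?_⟩
  · refine (PU β).sum_mem fun m _ => (PU β).mul_mem (PU_C (hb m)) ((PU β).pow_mem ?_ m)
    exact (PU β).sub_mem (X_mem_PU _) (PU_C B.kt0)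
  · have ht := B.pt
    obtain ⟨t0, ht0⟩ : ∃ t0, t0 = B.t0 := ⟨_, rfl⟩
    obtain ⟨τ, hτ0⟩ : ∃ τ, τ = B.τ := ⟨_, rfl⟩
    rw [← ht0, ← hτ0] at ht
    rw [← ht0] at hb'
    rw [← ht0, ← hy, ht, eval_tc P t0 _ le_rfl, Polynomial.eval_finsetSum, ← Finset.sum_sub_distrib]
    refine (Id S ρ).sum_mem fun m _ => ?_
    have e : tc P t0 m * (sc S s * τ) ^ m -
        Polynomial.eval (t0 + sc S s * τ) (Polynomial.C (b m) * (Polynomial.X - Polynomial.C t0) ^ m) =
        τ ^ m * (sc S (m * s) * (tc P t0 m - b m)) := by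
      rw [Polynomial.eval_mul, Polynomial.eval_C, Polynomial.eval_pow, Polynomial.eval_sub, Polynomial.eval_X,
        Polynomial.eval_C, add_sub_cancel_left, sc_nat_mul hs, mul_pow]
      ring
    rw [e]
    exact (Id S ρ).mul_mem_left _ (hb' m)

end Sbx

/-- **K IS AN INTEGER**, abstract form: derivatives of order at most `w` known and common up to a positive level, those
of order greater than `w` small -/
theorem weight_nat' [Nonempty ι] {O : S.L} {ξ : ι → S.L} (hL : NL O ξ) (P : ι → Polynomial (QS S))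
    (hP : ∀ i, P i ∈ PU (ξ i)) {t y : QS S} (hy : ∀ i, (P i).eval t = y) (htO : dg t 1 ≤ O)
    {D : ℕ} (hD1 : 1 ≤ D) (hD : ∀ i, (P i).natDegree ≤ D) {w : ℝ} {κ : ℝ} (hκ0 : 0 < κ)
    (hκ1 : κ ≤ 1)
    (hlow : ∀ i (l : ℕ), (l : ℝ) < w → dg (tc (P i) t l) κ ≤ O)
    (hcom : ∀ i i' (l : ℕ), (l : ℝ) < w → tc (P i) t l - tc (P i') t l ∈ Id S κ)
    (hdeg : ∀ i (l : ℕ), w < l → tc (P i) t l ∈ Id S κ)
    (hN : NR D ![t, y] ⊥ κ) : ∃ K : ℕ, w = K := by
  by_contra hc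
  push Not at hc
  apply no_all_known hL P hP hy hD1 hD hκ0 hκ1 ((QS.dg_mono _ hκ1).trans htO) _ _ hN
  · intro i l
    rcases lt_trichotomy (l : ℝ) w with h | h | h
    · exact hlow i l h
    · exact absurd h.symm (hc l)
    · rw [dg_of_mem_Id (hdeg i l h) le_rfl hκ1]
      exact bot_le
  · intro i i' l
    rcases lt_trichotomy (l : ℝ) w with h | h | h
    · exact hcom i i' l h
    · exact absurd h.symm (hc l)
    · exact (Id S κ).sub_mem (hdeg i l h) (hdeg i' l h)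

end

end Pool.Agent.Helper10.JET
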