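import Pool.Agent.Helper10.JET.SpnE

/-! SPAN WITH COPIES for any number of base directions. On events of extensions there are no kernels; then copies of the
system over functions of the point have, on an event of positive probability, linearly independent horizontal parts. -/

set_option autoImplicit false

namespace Pool.Agent.Helper10.JET

open Finset Filter Topology Pool.Agent.Helper69.RK Pool.Agent.Helper31.EC Pool.Agent.Helper31.EC.Sp
open Pool.Agent.Helper31.EC.QS Pool.Agent.Helper57.TA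

noncomputable section

variable {S : Sp} {ι : Type}

/-- NO KERNELS on events of extensions -/
def NLK (O : S.L) (ξ : ι → S.L) : Prop :=
  ∀ (W : Sp) (p : Pj W S) (E : ∀ k, (W.F k).Ω → Prop) (hE : 0 < ul (W.pr E)) (V : (W.rest E).L),
    (∀ y : S.L, I V (restL E hE (p.map y)) (restL E hE (p.map O)) = 0) →
    (∀ i (y : S.L), I V (restL E hE (p.map y)) (restL E hE (p.map (ξ i))) = 0) →
    ∀ y : S.L, I V (restL E hE (p.map y)) ⊥ = 0

/-- NO LABELS over independent informations, on events of extensions -/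
def NLC (O : S.L) (ξ : ι → S.L) : Prop :=
  ∀ (W : Sp) (p : Pj W S) (E : ∀ k, (W.F k).Ω → Prop) (hE : 0 < ul (W.pr E)) (X L : (W.rest E).L),
    (∀ y : S.L, I X (restL E hE (p.map y)) ⊥ = 0) → L ≤ restL E hE (p.map O) ⊔ X →
    (∀ i, L ≤ restL E hE (p.map (ξ i)) ⊔ X) → L ≤ X

theorem NLK.nlc {O : S.L} {ξ : ι → S.L} (h : NLK O ξ) : NLC O ξ := by
  intro W p E hE X L hX hO hξ
  have key : ∀ (z : S.L), L ≤ restL E hE (p.map z) ⊔ X → ∀ y : S.L,
      I (L ⊔ X) (restL E hE (p.map y)) (restL E hE (p.map z)) = 0 := by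
    intro z hz y
    have h1 := hX (y ⊔ z)
    rw [p.map_sup, restL_sup] at h1
    have h2 : I X (restL E hE (p.map y)) (restL E hE (p.map z)) = 0 := by
      apply le_antisymm _ (I_nonneg _ _ _)
      rw [← h1, sup_comm (restL E hE (p.map y)), I_chain_right]
      have h3 := I_nonneg X (restL E hE (p.map z)) ⊥
      rw [sup_bot_eq]
      linarith
    refine I_zero_mono h2 ?_ le_sup_left
    exact sup_le (hz.trans (sup_comm _ _).le) le_sup_left
  have h1 := h W p E hE (L ⊔ X) (key O hO) (fun i => key (ξ i) (hξ i)) O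
  rw [sup_comm, I_chain, sup_bot_eq] at h1
  have h2 : I L (restL E hE (p.map O)) X = 0 := by
    have h3 := I_nonneg X (restL E hE (p.map O)) ⊥
    have h4 := I_nonneg L (restL E hE (p.map O)) X
    linarith
  rw [I_eq, sub_eq_zero] at h2
  rw [← h_eq_zero_iff, h2]
  exact h_eq_zero_iff.mpr hO

theorem NLC.nlx {O : S.L} {ξ : ι → S.L} (h : NLC O ξ) : NLX O ξ := by
  intro W p E hE L hO hξ
  have h1 := h W p E hE ⊥ L (fun y => I_zero_of_le_left bot_le) (by rw [sup_bot_eq]; exact hO)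
    (fun i => by rw [sup_bot_eq]; exact hξ i)
  exact le_bot_iff.mp h1

theorem pb_and_eq (F : FSp) (E E' : F.Ω → Prop) : F.pb E * (F.rest E).pb E' = F.pb (fun ω => E ω ∧ E' ω) := by
  by_cases h0 : F.pb E = 0
  · have h1 : F.pb (fun ω => E ω ∧ E' ω) ≤ F.pb E := F.pb_mono fun ω _ h => h.1
    rw [h0, zero_mul]
    exact le_antisymm (F.pb_nonneg _) (h1.trans h0.le)
  · have e1 : (F.rest E).pb E' = ∑ ω : F.Ω, res (F.restμ E) E' ω := rfl
    have e2 : F.pb (fun ω => E ω ∧ E' ω) = ∑ ω, res F.μ (fun ω => E ω ∧ E' ω) ω := rfl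
    rw [e1, e2, F.restμ_eq E h0, res_res, ← Finset.mul_sum]
    field_simp

theorem pr_and_eq (E A : ∀ k, (S.F k).Ω → Prop) :
    ul (S.pr E) * ul ((S.rest E).pr A) = ul (S.pr fun k ω => E k ω ∧ A k ω) := by
  rw [← ul_mul (UB_pr E) (UB_pr (S := S.rest E) A)]
  congr 1
  funext k
  exact pb_and_eq (S.F k) (E k) (A k)

/-- typical events of a restricted space are typical on smaller events of positive probability -/
theorem typ_sub {E E2 : ∀ k, (S.F k).Ω → Prop} (hsub : ∀ k ω, E2 k ω → E k ω) (hE2 : 0 < ul (S.pr E2))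
    {A : ∀ k, (S.F k).Ω → Prop} (hA : Typ (S := S.rest E) A) : Typ (S := S.rest E2) A := by
  rcases typ_or (S := S.rest E2) A with h | h
  · exact h
  · exfalso
    have h1 : 0 < ul (S.pr fun k ω => E2 k ω ∧ ¬ A k ω) := pr_and_pos hE2 h
    have h2 : ul (S.pr fun k ω => E2 k ω ∧ ¬ A k ω) ≤ ul (S.pr fun k ω => E k ω ∧ ¬ A k ω) :=
      ul_mono (UB_pr _) (UB_pr _)
        (Eventually.of_forall fun k => (S.F k).pb_mono fun ω _ h => ⟨hsub k ω h.1, h.2⟩)
    have h3 : ul ((S.rest E).pr fun k ω => ¬ A k ω) = 0 := by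
      have h4 := ul_pr_compl (S := S.rest E) A
      rw [ul_pr_typ _ hA, sub_self] at h4
      exact h4
    have h5 : ul (S.pr fun k ω => E k ω ∧ ¬ A k ω) = 0 :=
      (pr_and_eq E fun k ω => ¬ A k ω).symm.trans (mul_eq_zero_of_right _ h3)
    linarith

/-- units stay units on smaller events -/
theorem unit_sub {E G : ∀ k, (S.F k).Ω → Prop} (hsub : ∀ k ω, G k ω → E k ω) (hE : 0 < ul (S.pr E))
    (hG : 0 < ul (S.pr G)) {x : QS S} (h : IsUnit (QS.rest E hE x)) : IsUnit (QS.rest G hG x) := by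
  obtain ⟨γ, rfl⟩ := mk_surj x
  rw [QS.rest_mk, isUnit_mk] at h ⊢
  obtain ⟨K, hK, hh⟩ := h
  exact ⟨K, hK, typ_sub hsub hG hh⟩

/-- finitely many functions which are units on no event are small on a piece of every event -/
theorem small_event_in {J : Type} [Fintype J] (x : J → QS S)
    (hx : ∀ j (E : ∀ k, (S.F k).Ω → Prop) (hE : 0 < ul (S.pr E)), ¬ IsUnit (QS.rest E hE (x j)))
    (E0 : ∀ k, (S.F k).Ω → Prop) (hE0 : 0 < ul (S.pr E0)) :
    ∃ (δ : ℝ) (E : ∀ k, (S.F k).Ω → Prop) (hE : 0 < ul (S.pr E)), 0 < δ ∧ δ ≤ 1 ∧ (∀ k ω, E k ω → E0 k ω) ∧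
      ∀ j, QS.rest E hE (x j) ∈ Id (S.rest E) δ := by
  classical
  choose γ hγ using fun j => mk_surj (x j)
  have key : ∀ s : Finset J, ∃ (δ : ℝ) (E : ∀ k, (S.F k).Ω → Prop), 0 < ul (S.pr E) ∧ 0 < δ ∧ δ ≤ 1 ∧
      (∀ k ω, E k ω → E0 k ω) ∧ ∀ j ∈ s, ∀ k ω, E k ω → |TR.ev (γ j) k ω| ≤ S.dl δ k := by
    intro s
    induction s using Finset.induction_on with
    | empty =>
      exact ⟨1, E0, hE0, one_pos, le_rfl, fun k ω h => h, fun j hj => absurd hj (Finset.notMem_empty j)⟩
    | insert a s ha ih =>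
      obtain ⟨δ, E, hE, hδ0, hδ1, hs, h1⟩ := ih
      obtain ⟨δ', hδ', h2⟩ := small_piece (γ := γ a) (by rw [hγ a]; exact hx a) E hE
      refine ⟨min δ δ', _, h2, lt_min hδ0 hδ', (min_le_left _ _).trans hδ1, fun k ω h => hs k ω h.1,
        fun j hj k ω hω => ?_⟩
      rcases Finset.mem_insert.mp hj with h3 | h3
      · subst h3
        exact hω.2.le.trans (S.dl_anti (min_le_right _ _) k)
      · exact (h1 j h3 k ω hω.1).trans (S.dl_anti (min_le_left _ _) k)
  obtain ⟨δ, E, hE, hδ0, hδ1, hs, h1⟩ := key Finset.univ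
  refine ⟨δ, E, hE, hδ0, hδ1, hs, fun j => ?_⟩
  rw [← hγ j, QS.rest_mk, mk_mem_Id hδ1]
  refine ⟨fun _ _ => True, fun _ => 1, Typ_true, (S.rest E).Sub_const zero_le_one, ?_⟩
  filter_upwards [supp_rest E hE] with k hk ω hω _
  rw [TR.ev_zero, sub_zero, one_mul]
  exact h1 j (Finset.mem_univ j) k ω (hk ω hω).2

/-- digits of a member of a real family over other members -/
theorem Rl_level {n : Type} [Fintype n] {x : n → QS S} {A : S.L} (hx : Rl x A) {s : Finset n} {j : n} (hj : j ∉ s)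
    {δ : ℝ} (h1 : δ ≤ 1) : δ ≤ h (dg (x j) δ) (sd x s ⊔ A) := by
  classical
  have e1 := hx.sub (s := {j}) (t := s) (by simpa using hj)
  have e2 : sd x {j} = dg (x j) 1 := by simp [sd]
  rw [e2, Finset.card_singleton, Nat.cast_one] at e1
  have e3 : h (dg (x j) 1) (sd x s ⊔ A) ≤ h (dg (x j) 1) (dg (x j) δ ⊔ (sd x s ⊔ A)) + h (dg (x j) δ) (sd x s ⊔ A) :=
    h_triangle _ _ _
  have e4 : h (dg (x j) 1) (dg (x j) δ ⊔ (sd x s ⊔ A)) ≤ 1 - δ :=
    (h_anti le_sup_left).trans (h_dg_dg (x j) h1)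
  linarith

/-- expansion of a bordered determinant over an invertible block -/
theorem det_border {R : Type*} [CommRing R] {m : ℕ} (M : Matrix (Fin (m + 1)) (Fin (m + 1)) R)
    (hu : IsUnit (Matrix.of fun l k : Fin m => M l.castSucc k.castSucc).det) :
    M.det = (Matrix.of fun l k : Fin m => M l.castSucc k.castSucc).det *
      (M (Fin.last m) (Fin.last m) - ∑ k, M (Fin.last m) (Fin.castSucc k) *
        ∑ l, (Matrix.of fun l k : Fin m => M l.castSucc k.castSucc)⁻¹ k l * M (Fin.castSucc l) (Fin.last m)) := by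
  classical
  obtain ⟨A, hA⟩ : ∃ A : Matrix (Fin m) (Fin m) R, A = Matrix.of fun l k : Fin m => M l.castSucc k.castSucc := ⟨_, rfl⟩
  rw [← hA] at hu ⊢
  let _ : Invertible A := Matrix.invertibleOfIsUnitDet A hu
  have e1 : M.det = (M.submatrix finSumFinEquiv finSumFinEquiv).det := (Matrix.det_submatrix_equiv_self _ _).symm
  have e2 : M.submatrix (finSumFinEquiv (m := m) (n := 1)) (finSumFinEquiv (m := m) (n := 1)) = Matrix.fromBlocks A
      (Matrix.of fun (l : Fin m) (_ : Fin 1) => M l.castSucc (Fin.last m))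
      (Matrix.of fun (_ : Fin 1) (k : Fin m) => M (Fin.last m) k.castSucc)
      (Matrix.of fun (_ : Fin 1) (_ : Fin 1) => M (Fin.last m) (Fin.last m)) := by
    have hl : ∀ z : Fin 1, finSumFinEquiv (m := m) (n := 1) (Sum.inr z) = Fin.last m := by
      intro z
      rw [finSumFinEquiv_apply_right]
      apply Fin.ext
      have hz : (z : ℕ) = 0 := by omega
      simp
    ext i j
    rcases i with i | i <;> rcases j with j | j
    · rw [hA]; rfl
    · show M _ _ = M _ _
      rw [hl]; rfl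
    · show M _ _ = M _ _
      rw [hl]; rfl
    · show M _ _ = M _ _
      rw [hl, hl]
  rw [e1, e2, Matrix.det_fromBlocks₁₁, Matrix.det_fin_one, Matrix.invOf_eq_nonsing_inv]
  congr 1
  rw [Matrix.mul_assoc]
  rfl

/-- restriction of determinants -/
theorem rest_det {n : Type} [Fintype n] [DecidableEq n] (E : ∀ k, (S.F k).Ω → Prop) (hE : 0 < ul (S.pr E))
    (M : Matrix n n (QS S)) : QS.rest E hE M.det = (M.map (QS.rest E hE)).det := by
  rw [RingHom.map_det]
  rfl

/-- copies are independent of the point -/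
theorem ind_copies {σ : Type} [Fintype σ] {F : σ → QS S} {d : ℕ} (C : CQ S F d) (V : Fin (d + 1) → S.L)
    (hV : ∀ l, I (V l) (vd F 1) ⊥ = 0) (s : Finset (Fin (d + 1))) (m : Fin (d + 1)) (hm : m ∉ s) (y : S.L) :
    I (s.sup fun l => (C.p l).map (V l)) ((C.p m).map y) ⊥ = 0 := by
  classical
  have h1 : I (s.sup fun l => (C.p l).map (V l)) C.v ⊥ = 0 := by
    have h2 := C.h_sup s V
    have h3 := h_finsup_le s (fun l => (C.p l).map (V l)) (⊥ : C.W.L)
    have h4 : ∀ l, h ((C.p l).map (V l)) (⊥ : C.W.L) = h (V l) (vd F 1) := by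
      intro l
      have h5 := hV l
      rw [I_eq, sup_bot_eq] at h5
      have h6 := (C.p l).h_map (V l) ⊥
      rw [Pj.map_bot] at h6
      rw [h6]
      linarith
    rw [Finset.sum_congr rfl fun l _ => h4 l] at h3
    apply le_antisymm _ (I_nonneg _ _ _)
    rw [I_eq, sup_bot_eq]
    linarith
  have h2 : I (s.sup fun l => (C.p l).map (V l)) ((C.p m).map y) C.v = 0 := by
    have h3 := C.I_sup (s := s) (t := {m}) (by simpa using hm) (fun l => if l = m then y else V l)
    rw [Finset.sup_singleton, if_pos rfl] at h3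
    have h4 : (s.sup fun l => (C.p l).map (if l = m then y else V l)) = s.sup fun l => (C.p l).map (V l) := by
      apply Finset.sup_congr rfl
      intro l hl
      have : l ≠ m := fun hc => hm (hc ▸ hl)
      rw [if_neg this]
    rwa [h4] at h3
  have h3 := I_chain_right (s.sup fun l => (C.p l).map (V l)) C.v ((C.p m).map y) ⊥
  rw [h1, sup_bot_eq, h2, add_zero] at h3
  exact I_zero_mono h3 le_sup_left (le_sup_right.trans le_sup_left)

/-- one step: a unit minor with the first `m` copies can be bordered -/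
theorem span_step {d m : ℕ} [Fintype ι] {O : S.L} {ξ : ι → S.L} (hL : NLC O ξ) {q : Fin (d + 1) → QS S}
    {t : QS S} {u ft : ι → Fin (d + 1) → QS S} (hq : vd q 1 ≤ O) (hR : Rl q ⊥)
    (he : ∀ i a, q a = ft i a + t * u i a) (hft : ∀ i, vd (ft i) 1 ≤ ξ i) (r1 : ∀ i, I (vd (u i) 1) O ⊥ = 0)
    {σ : Type} [Fintype σ] {F : σ → QS S} (hF : vd F 1 ≤ O) (C : CQ S F d) (hm : m < d + 1)
    (i : Fin (d + 1) → ι) (s : Fin m → Fin (d + 1)) (hs : Function.Injective s)
    (E : ∀ k, (C.W.F k).Ω → Prop) (hE : 0 < ul (C.W.pr E))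
    (hu : IsUnit (QS.rest E hE (Matrix.of fun l c : Fin m =>
      (C.p (Fin.castLE hm.le l)).qs (u (i (Fin.castLE hm.le l)) (s c))).det)) :
    ∃ (i' : Fin (d + 1) → ι) (s' : Fin (m + 1) → Fin (d + 1)), Function.Injective s' ∧
      ∃ (E' : ∀ k, (C.W.F k).Ω → Prop) (hE' : 0 < ul (C.W.pr E')),
        IsUnit (QS.rest E' hE' (Matrix.of fun l c : Fin (m + 1) =>
          (C.p (Fin.castLE hm l)).qs (u (i' (Fin.castLE hm l)) (s' c))).det) := by
  classical
  -- a new column
  obtain ⟨j, hj⟩ : ∃ j, j ∉ Set.range s := by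
    by_contra hc
    push Not at hc
    have h1 : Function.Surjective s := hc
    have h2 := Fintype.card_le_of_surjective s h1
    rw [Fintype.card_fin, Fintype.card_fin] at h2
    omega
  have hs' : Function.Injective (Fin.snoc s j : Fin (m + 1) → Fin (d + 1)) := by
    rw [Fin.snoc_injective_iff]
    exact ⟨hs, hj⟩
  by_contra hcon
  push Not at hcon
  obtain ⟨m', hm'⟩ : ∃ m' : Fin (d + 1), m' = ⟨m, hm⟩ := ⟨_, rfl⟩
  obtain ⟨M, hM⟩ : ∃ M : ι → Matrix (Fin (m + 1)) (Fin (m + 1)) (QS C.W), M = fun k => Matrix.of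
      fun l c : Fin (m + 1) => (C.p (Fin.castLE hm l)).qs (u (Function.update i m' k (Fin.castLE hm l))
        ((Fin.snoc s j : Fin (m + 1) → Fin (d + 1)) c)) := ⟨_, rfl⟩
  obtain ⟨δ, G, hG, hδ0, hδ1, hsub, hsm⟩ := small_event_in (fun k => (M k).det)
    (fun k E hE => by
      rw [hM]
      exact hcon (Function.update i m' k) _ hs' E hE) E hE
  have hcs : ∀ l : Fin m, Fin.castLE hm (Fin.castSucc l) = Fin.castLE hm.le l := fun l => rfl
  have hcl : Fin.castLE hm (Fin.last m) = m' := by rw [hm']; rfl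
  have hne : ∀ l : Fin m, Fin.castLE hm.le l ≠ m' := by
    intro l hc
    rw [hm'] at hc
    have h1 := congrArg Fin.val hc
    have h2 : (l : ℕ) = m := h1
    omega
  -- the block
  obtain ⟨A, hA⟩ : ∃ A : Matrix (Fin m) (Fin m) (QS (C.W.rest G)), A = Matrix.of fun l c : Fin m =>
      QS.rest G hG ((C.p (Fin.castLE hm.le l)).qs (u (i (Fin.castLE hm.le l)) (s c))) := ⟨_, rfl⟩
  have hAu : IsUnit A.det := by
    have h1 := unit_sub hsub hE hG hu
    rw [rest_det] at h1
    rw [hA]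
    exact h1
  have hblock : ∀ k, (Matrix.of fun l c : Fin m => ((M k).map (QS.rest G hG)) l.castSucc c.castSucc) = A := by
    intro k
    rw [hA, hM]
    ext l c
    show QS.rest G hG ((C.p (Fin.castLE hm (Fin.castSucc l))).qs (u (Function.update i m' k
      (Fin.castLE hm (Fin.castSucc l))) ((Fin.snoc s j : Fin (m + 1) → Fin (d + 1)) (Fin.castSucc c)))) = _
    rw [hcs, Function.update_of_ne (hne l), Fin.snoc_castSucc]
    rfl
  -- the functions
  obtain ⟨g, hg⟩ : ∃ g : Fin m → QS (C.W.rest G), g = fun c => ∑ l : Fin m, A⁻¹ c l *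
      QS.rest G hG ((C.p (Fin.castLE hm.le l)).qs (u (i (Fin.castLE hm.le l)) j)) := ⟨_, rfl⟩
  obtain ⟨w, hw⟩ : ∃ w : ι → Fin (d + 1) → QS (C.W.rest G), w = fun k a =>
      QS.rest G hG ((C.p m').qs (u k a)) := ⟨_, rfl⟩
  have hrel : ∀ k, w k j - ∑ c, w k (s c) * g c ∈ Id (C.W.rest G) δ := by
    intro k
    have h1 : QS.rest G hG (M k).det ∈ Id (C.W.rest G) δ := hsm k
    rw [rest_det, det_border _ (by rw [hblock k]; exact hAu), hblock k] at h1
    have h2 := mem_Id_of_unit_mul hAu h1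
    have e1 : ∀ (l : Fin m), ((M k).map (QS.rest G hG)) (Fin.castSucc l) (Fin.last m) =
        QS.rest G hG ((C.p (Fin.castLE hm.le l)).qs (u (i (Fin.castLE hm.le l)) j)) := by
      intro l
      rw [hM]
      show QS.rest G hG ((C.p (Fin.castLE hm (Fin.castSucc l))).qs (u (Function.update i m' k
        (Fin.castLE hm (Fin.castSucc l))) ((Fin.snoc s j : Fin (m + 1) → Fin (d + 1)) (Fin.last m)))) = _
      rw [hcs, Function.update_of_ne (hne l), Fin.snoc_last]
    have e2 : ∀ (c : Fin m), ((M k).map (QS.rest G hG)) (Fin.last m) (Fin.castSucc c) = w k (s c) := by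
      intro c
      rw [hM, hw]
      show QS.rest G hG ((C.p (Fin.castLE hm (Fin.last m))).qs (u (Function.update i m' k
        (Fin.castLE hm (Fin.last m))) ((Fin.snoc s j : Fin (m + 1) → Fin (d + 1)) (Fin.castSucc c)))) = _
      rw [hcl, Function.update_self, Fin.snoc_castSucc]
    have e3 : ((M k).map (QS.rest G hG)) (Fin.last m) (Fin.last m) = w k j := by
      rw [hM, hw]
      show QS.rest G hG ((C.p (Fin.castLE hm (Fin.last m))).qs (u (Function.update i m' k
        (Fin.castLE hm (Fin.last m))) ((Fin.snoc s j : Fin (m + 1) → Fin (d + 1)) (Fin.last m)))) = _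
      rw [hcl, Function.update_self, Fin.snoc_last]
    rw [e3] at h2
    have e4 : (∑ c, ((M k).map (QS.rest G hG)) (Fin.last m) (Fin.castSucc c) *
        ∑ l, A⁻¹ c l * ((M k).map (QS.rest G hG)) (Fin.castSucc l) (Fin.last m)) = ∑ c, w k (s c) * g c := by
      rw [hg]
      apply Finset.sum_congr rfl
      intro c _
      rw [e2]
      congr 1
      apply Finset.sum_congr rfl
      intro l _
      rw [e1]
    rwa [e4] at h2
  -- the information of the first copies
  obtain ⟨s0, hs0⟩ : ∃ s0 : Finset (Fin (d + 1)), s0 = Finset.univ.image (Fin.castLE hm.le) := ⟨_, rfl⟩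
  have hm0 : m' ∉ s0 := by
    rw [hs0]
    intro hc
    obtain ⟨l, _, hl⟩ := Finset.mem_image.mp hc
    exact hne l hl
  obtain ⟨X, hX⟩ : ∃ X : (C.W.rest G).L, X = restL G hG (s0.sup fun l => (C.p l).map (vd (u (i l)) 1)) := ⟨_, rfl⟩
  have hXi : ∀ y : S.L, I X (restL G hG ((C.p m').map y)) ⊥ = 0 := by
    intro y
    rw [hX, ← restL_bot G hG]
    apply I_rest_zero
    refine ind_copies C (fun l => vd (u (i l)) 1) (fun l => ?_) s0 m' hm0 y
    exact I_zero_mono (r1 (i l)) le_sup_left (hF.trans le_sup_left)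
  have hXk : ∀ (l : Fin m) (a : Fin (d + 1)), dg (QS.rest G hG
      ((C.p (Fin.castLE hm.le l)).qs (u (i (Fin.castLE hm.le l)) a))) 1 ≤ X := by
    intro l a
    rw [QS.rest_dg, (C.p _).qs_dg, hX]
    apply restL_mono
    refine le_trans ((C.p _).map_mono (dg_le_vd _ 1 a)) ?_
    exact Finset.le_sup (f := fun l => (C.p l).map (vd (u (i l)) 1))
      (by rw [hs0]; exact Finset.mem_image_of_mem _ (Finset.mem_univ l))
  have hgX : ∀ c, dg (g c) 1 ≤ X := by
    intro c
    rw [hg]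
    apply (Kn (C.W.rest G) 1 le_rfl X).sum_mem
    intro l _
    refine (Kn (C.W.rest G) 1 le_rfl X).mul_mem ?_ (hXk l j)
    apply inv_mem A le_rfl X _ hAu
    intro l c
    rw [hA]
    exact hXk l (s c)
  have hgX' : ∀ c, dg (g c) δ ≤ X := fun c => (QS.dg_mono _ hδ1).trans (hgX c)
  -- the function `z`
  obtain ⟨Q, hQ⟩ : ∃ Q : Fin (d + 1) → QS (C.W.rest G), Q = fun a => QS.rest G hG ((C.p m').qs (q a)) := ⟨_, rfl⟩
  obtain ⟨z, hz⟩ : ∃ z, z = Q j - ∑ c, Q (s c) * g c := ⟨_, rfl⟩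
  have hQO : ∀ a, dg (Q a) δ ≤ restL G hG ((C.p m').map O) := by
    intro a
    rw [hQ]
    refine (QS.dg_mono _ hδ1).trans ?_
    rw [QS.rest_dg, (C.p _).qs_dg]
    exact restL_mono G hG ((C.p _).map_mono ((dg_le_vd q 1 a).trans hq))
  have hzX : dg z δ ≤ X := by
    apply hL C.W (C.p m') G hG X (dg z δ) hXi
    · rw [hz]
      refine (Kn (C.W.rest G) δ hδ1 _).sub_mem ((hQO j).trans le_sup_left)
        ((Kn (C.W.rest G) δ hδ1 _).sum_mem fun c _ => ?_)
      exact (Kn (C.W.rest G) δ hδ1 _).mul_mem ((hQO (s c)).trans le_sup_left) ((hgX' c).trans le_sup_right)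
    · intro k
      obtain ⟨Fk, hFk⟩ : ∃ Fk : Fin (d + 1) → QS (C.W.rest G), Fk = fun a =>
        QS.rest G hG ((C.p m').qs (ft k a)) := ⟨_, rfl⟩
      have hFξ : ∀ a, dg (Fk a) δ ≤ restL G hG ((C.p m').map (ξ k)) := by
        intro a
        rw [hFk]
        refine (QS.dg_mono _ hδ1).trans ?_
        rw [QS.rest_dg, (C.p _).qs_dg]
        exact restL_mono G hG ((C.p _).map_mono ((dg_le_vd (ft k) 1 a).trans (hft k)))
      have hQw : ∀ a, Q a = Fk a + QS.rest G hG ((C.p m').qs t) * w k a := by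
        intro a
        rw [hQ, hFk, hw]
        show QS.rest G hG ((C.p m').qs (q a)) = _
        rw [he k a, map_add, map_mul, map_add, map_mul]
      have h1 : z - (Fk j - ∑ c, Fk (s c) * g c) ∈ Id (C.W.rest G) δ := by
        have h2 := (Id (C.W.rest G) δ).mul_mem_left (QS.rest G hG ((C.p m').qs t)) (hrel k)
        have e : z - (Fk j - ∑ c, Fk (s c) * g c) =
            QS.rest G hG ((C.p m').qs t) * (w k j - ∑ c, w k (s c) * g c) := by
          rw [hz, hQw j]
          have e1 : ∑ c, Q (s c) * g c = ∑ c, Fk (s c) * g c +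
              QS.rest G hG ((C.p m').qs t) * ∑ c, w k (s c) * g c := by
            rw [Finset.mul_sum, ← Finset.sum_add_distrib]
            apply Finset.sum_congr rfl
            intro c _
            rw [hQw (s c)]
            ring
          rw [e1]
          ring
        rwa [e]
      rw [dg_eq_of_sub_mem h1 le_rfl hδ1]
      refine (Kn (C.W.rest G) δ hδ1 _).sub_mem ((hFξ j).trans le_sup_left)
        ((Kn (C.W.rest G) δ hδ1 _).sum_mem fun c _ => ?_)
      exact (Kn (C.W.rest G) δ hδ1 _).mul_mem ((hFξ (s c)).trans le_sup_left) ((hgX' c).trans le_sup_right)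
  -- the point is real over the first copies
  have hQR : Rl Q X := by
    have h1 : Rl Q ⊥ := by
      have h2 := (Rl.pull (C.p m') hR).rest G hG
      rw [Pj.map_bot, restL_bot] at h2
      rw [hQ]
      exact h2
    have h2 : vd Q 1 ≤ restL G hG ((C.p m').map O) := by
      rw [vd_le]
      intro a
      rw [hQ]
      show dg (QS.rest G hG ((C.p m').qs (q a))) 1 ≤ _
      rw [QS.rest_dg, (C.p _).qs_dg]
      exact restL_mono G hG ((C.p _).map_mono ((dg_le_vd q 1 a).trans hq))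
    have h3 : I X (vd Q 1) ⊥ = 0 := I_zero_mono (hXi O) le_sup_left (h2.trans le_sup_left)
    unfold Rl at h1 ⊢
    rw [I_zero_iff_h', sup_bot_eq] at h3
    rw [h3, h1]
  have hjs : j ∉ Finset.univ.image s := by
    intro hc
    obtain ⟨c, _, hc⟩ := Finset.mem_image.mp hc
    exact hj ⟨c, hc⟩
  have h1 := Rl_level hQR hjs hδ1
  have h2 : h (dg (Q j) δ) (sd Q (Finset.univ.image s) ⊔ X) = 0 := by
    apply h_zero
    have e : Q j = z + ∑ c, Q (s c) * g c := by rw [hz]; ring
    rw [e]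
    refine (Kn (C.W.rest G) δ hδ1 _).add_mem (hzX.trans le_sup_right)
      ((Kn (C.W.rest G) δ hδ1 _).sum_mem fun c _ => ?_)
    refine (Kn (C.W.rest G) δ hδ1 _).mul_mem ?_ ((hgX' c).trans le_sup_right)
    refine (QS.dg_mono _ hδ1).trans ?_
    exact (dg_le_sd Q (Finset.mem_image_of_mem s (Finset.mem_univ c))).trans le_sup_left
  rw [h2] at h1
  linarith

/-- **SPAN WITH COPIES.** -/
theorem span_copies {d : ℕ} [Fintype ι] [Nonempty ι] {O : S.L} {ξ : ι → S.L} (hL : NLC O ξ)
    {q : Fin (d + 1) → QS S} {t : QS S} {u ft : ι → Fin (d + 1) → QS S} (hq : vd q 1 ≤ O) (hR : Rl q ⊥)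
    (he : ∀ i a, q a = ft i a + t * u i a) (hft : ∀ i, vd (ft i) 1 ≤ ξ i) (r1 : ∀ i, I (vd (u i) 1) O ⊥ = 0)
    {σ : Type} [Fintype σ] {F : σ → QS S} (hF : vd F 1 ≤ O) (C : CQ S F d) :
    ∃ (i : Fin (d + 1) → ι) (E : ∀ k, (C.W.F k).Ω → Prop) (hE : 0 < ul (C.W.pr E)),
      IsUnit (QS.rest E hE (Matrix.of fun l a => (C.p l).qs (u (i l) a)).det) := by
  classical
  have key : ∀ (m : ℕ) (hm : m ≤ d + 1), ∃ (i : Fin (d + 1) → ι) (s : Fin m → Fin (d + 1)), Function.Injective s ∧
      ∃ (E : ∀ k, (C.W.F k).Ω → Prop) (hE : 0 < ul (C.W.pr E)),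
        IsUnit (QS.rest E hE (Matrix.of fun l c : Fin m =>
          (C.p (Fin.castLE hm l)).qs (u (i (Fin.castLE hm l)) (s c))).det) := by
    intro m
    induction m with
    | zero =>
      intro hm
      obtain ⟨i0⟩ := ‹Nonempty ι›
      refine ⟨fun _ => i0, Fin.elim0, fun a => a.elim0, fun _ _ => True, ul_pr_typ_pos _ Typ_true, ?_⟩
      rw [Matrix.det_fin_zero, map_one]
      exact isUnit_one
    | succ m ih =>
      intro hm
      obtain ⟨i, s, hs, E, hE, hu⟩ := ih (Nat.le_of_succ_le hm)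
      exact span_step hL hq hR he hft r1 hF C hm i s hs E hE hu
  obtain ⟨i, s, hs, E, hE, hu⟩ := key (d + 1) le_rfl
  refine ⟨i, E, hE, ?_⟩
  have hb : Function.Bijective s := Finite.injective_iff_bijective.mp hs
  obtain ⟨π, hπ⟩ : ∃ π : Equiv.Perm (Fin (d + 1)), ∀ c, π c = s c := ⟨Equiv.ofBijective s hb, fun c => rfl⟩
  have e : (Matrix.of fun l c : Fin (d + 1) => (C.p (Fin.castLE le_rfl l)).qs (u (i (Fin.castLE le_rfl l)) (s c))) =
      (Matrix.of fun l a : Fin (d + 1) => (C.p l).qs (u (i l) a)).submatrix id π := by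
    ext l c
    show (C.p _).qs (u (i _) (s c)) = (C.p l).qs (u (i l) (π c))
    rw [hπ]
    rfl
  rw [e, Matrix.det_permute', map_mul] at hu
  exact isUnit_of_mul_isUnit_right hu

end

end Pool.Agent.Helper10.JET
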