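import Pool.Agent.Helper10.JET.SpnE
import Pool.Agent.Helper21.DO.K3

/-! Corners with one unit direction: data at full precision; the fan of two lines `(1, a)` through the real point
`(t, f)`, `f` = derivative of order `K - 1`; K ≥ 3 is impossible if the derivative of order `K - 2` is known to
`(t, f)`. -/

set_option autoImplicit false

namespace Pool.Agent.Helper10.JET

open Finset Filter Topology Pool.Agent.Helper69.RK Pool.Agent.Helper31.EC Pool.Agent.Helper31.EC.Sp
open Pool.Agent.Helper31.EC.QS Pool.Agent.Helper57.TA Pool.Agent.Helper5.DO Pool.Agent.Helper21.DO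

noncomputable section

/-- DATA of a corner with one unit direction, lowest coordinate `y` of weight `K`, at full precision -/
structure Jd (S : Sp) (ι : Type) where
  O : S.L
  ξ : ι → S.L
  t : QS S
  y : QS S
  P : ι → Polynomial (QS S)
  K : ℕ
  D : ℕ
  D1 : 1 ≤ D
  kn : ∀ i, P i ∈ PU (ξ i)
  pt : ∀ i, (P i).eval t = y
  tO : dg t 1 ≤ O
  deg : ∀ i, (P i).natDegree ≤ D
  far : ∀ i l, K < l → tc (P i) t l = 0
  near : ∀ i l, l < K → dg (tc (P i) t l) 1 ≤ O
  com : ∀ i i' l, l < K → tc (P i) t l = tc (P i') t l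
  nl : NLX O ξ
  nr : NRX D t y 1
  treal : ∀ i, h (dg t 1) (ξ i) = 1

namespace Jd

variable {S : Sp} {ι : Type} (J : Jd S ι)

/-- derivatives (with the factor `1 / l!`) along the curve of type `i` -/
def φ (i : ι) (l : ℕ) : QS S := tc (J.P i) J.t l

/-- the derivative of order `K`, times `K`: the slope of `φ (K - 1)` -/
def a (i : ι) : QS S := (J.K : QS S) * J.φ i J.K

/-- the foot of the line of `(t, φ (K - 1))` -/
def ft (i : ι) : QS S := J.φ i (J.K - 1) - J.t * J.a i

theorem a_kn (i : ι) : dg (J.a i) 1 ≤ J.ξ i := by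
  have h1 : J.φ i J.K = (J.P i).coeff J.K := by
    unfold φ
    rw [coeff_tc (J.P i) J.t J.K (max J.D J.K) ((J.deg i).trans (le_max_left _ _))]
    rw [Finset.sum_eq_single J.K]
    · simp
    · intro l _ hl
      rcases lt_or_gt_of_ne hl with h2 | h2
      · rw [Nat.choose_eq_zero_of_lt h2, Nat.cast_zero, zero_mul, zero_mul]
      · rw [J.far i l h2, mul_zero, zero_mul]
    · intro h
      exact absurd (Finset.mem_range.mpr (Nat.lt_succ_of_le (le_max_right J.D J.K))) h
  unfold a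
  rw [h1]
  exact (Kn S 1 le_rfl _).mul_mem (natCast_mem _ _) (J.kn i J.K)

/-- the Taylor formula for the derivative of order `m` along the curve -/
theorem hasse_eval (i : ι) (m : ℕ) (u : QS S) : (Polynomial.hasseDeriv m (J.P i)).eval (J.t + u) =
    ∑ j ∈ Finset.range (J.D + 1), ((j + m).choose j : QS S) * J.φ i (j + m) * u ^ j := by
  have h1 : (Polynomial.hasseDeriv m (J.P i)).natDegree ≤ J.D := by
    refine (Polynomial.natDegree_hasseDeriv_le _ _).trans ?_
    exact (Nat.sub_le _ _).trans (J.deg i)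
  have h2 : (Polynomial.hasseDeriv m (J.P i)).eval (J.t + u) =
      (Polynomial.taylor J.t (Polynomial.hasseDeriv m (J.P i))).eval u := by
    rw [Polynomial.taylor_eval, add_comm]
  rw [h2, Polynomial.eval_eq_sum_range' (n := J.D + 1) (by rw [Polynomial.natDegree_taylor]; omega)]
  apply Finset.sum_congr rfl
  intro j _
  rw [Polynomial.taylor_coeff]
  have h3 : Polynomial.hasseDeriv j (Polynomial.hasseDeriv m (J.P i)) =
      ((j + m).choose j : Polynomial (QS S)) * Polynomial.hasseDeriv (j + m) (J.P i) := by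
    have h4 := DFunLike.congr_fun (Polynomial.hasseDeriv_comp (R := QS S) j m) (J.P i)
    rw [LinearMap.comp_apply] at h4
    rw [h4]
    simp
  rw [h3, Polynomial.eval_mul, Polynomial.eval_natCast]
  rfl

theorem hasse_zero_kn (i : ι) (m : ℕ) : dg ((Polynomial.hasseDeriv m (J.P i)).eval 0) 1 ≤ J.ξ i := by
  apply PU_eval (PU_hasse (J.kn i) m)
  exact (Kn S 1 le_rfl (J.ξ i)).zero_mem

/-- the foot is known to the curve -/
theorem ft_kn (hK : 1 ≤ J.K) (i : ι) : dg (J.ft i) 1 ≤ J.ξ i := by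
  have h1 : J.ft i = (Polynomial.hasseDeriv (J.K - 1) (J.P i)).eval 0 := by
    have h2 := J.hasse_eval i (J.K - 1) (-J.t)
    rw [add_neg_cancel] at h2
    rw [h2]
    have h3 : ∑ j ∈ Finset.range (J.D + 1), ((j + (J.K - 1)).choose j : QS S) * J.φ i (j + (J.K - 1)) * (-J.t) ^ j =
        ∑ j ∈ Finset.range 2, ((j + (J.K - 1)).choose j : QS S) * J.φ i (j + (J.K - 1)) * (-J.t) ^ j := by
      symm
      apply Finset.sum_subset
      · intro j hj
        have := J.D1
        rw [Finset.mem_range] at hj ⊢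
        omega
      · intro j _ hj
        rw [Finset.mem_range, not_lt] at hj
        have h4 : J.φ i (j + (J.K - 1)) = 0 := J.far i _ (by omega)
        rw [h4, mul_zero, zero_mul]
    rw [h3, Finset.sum_range_succ, Finset.sum_range_one]
    have h4 : 1 + (J.K - 1) = J.K := by omega
    rw [h4, Nat.choose_one_right, Nat.choose_zero_right, zero_add, pow_zero, pow_one, Nat.cast_one]
    unfold ft a
    ring
  rw [h1]
  exact J.hasse_zero_kn i _

end Jd

/-- independence of a function of the time over the line passes to functions which are known to line and time -/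
theorem known_to_line {L : Type*} [PM L] {x τ b ξ : L} (hb : b ≤ ξ) (hx : x ≤ ξ) (hxt : x ≤ τ ⊔ b)
    (ht : h τ ξ = h τ b) : x ≤ b := by
  rw [← h_eq_zero_iff]
  have h1 : I x τ b = 0 := by
    apply le_antisymm _ (I_nonneg _ _ _)
    rw [I_eq', ← ht]
    have h2 : h τ ξ ≤ h τ (x ⊔ b) := h_anti (sup_le hx hb)
    linarith
  rw [I_eq] at h1
  have h3 : h x (τ ⊔ b) = 0 := h_eq_zero_iff.mpr hxt
  linarith

namespace Jd

variable {S : Sp} {ι : Type} (J : Jd S ι)

/-- two lines through the point `(t, φ (K - 1))`, on an event of two copies -/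
def fan {σ : Type} [Fintype σ] {G : σ → QS S} (C : CQ S G 1) (f : QS S)
    (hf : ∀ i, J.φ i (J.K - 1) = f) (ct : (C.p 1).qs J.t = (C.p 0).qs J.t)
    (cf : (C.p 1).qs f = (C.p 0).qs f) (E : ∀ k, (C.W.F k).Ω → Prop) (hE : 0 < ul (C.W.pr E)) (i i' : ι)
    (hu : IsUnit (QS.rest E hE ((C.p 1).qs (J.a i') - (C.p 0).qs (J.a i))))
    (hr : Rl ![(C.p 0).qs J.t, (C.p 0).qs f] (dg ((C.p 0).qs (J.a i)) 1 ⊔ dg ((C.p 1).qs (J.a i')) 1)) :
    Fan (C.W.rest E) 2 where
  q := ![QS.rest E hE ((C.p 0).qs J.t), QS.rest E hE ((C.p 0).qs f)]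
  x := ![![1, QS.rest E hE ((C.p 0).qs (J.a i))], ![1, QS.rest E hE ((C.p 1).qs (J.a i'))]]
  f := ![![0, QS.rest E hE ((C.p 0).qs (J.ft i))], ![0, QS.rest E hE ((C.p 1).qs (J.ft i'))]]
  ta := 0
  pt := by
    intro l b
    fin_cases l <;> fin_cases b
    · show _ = 0 + _ * 1
      rw [mul_one, zero_add]
      rfl
    · show QS.rest E hE ((C.p 0).qs f) = QS.rest E hE ((C.p 0).qs (J.ft i)) +
        QS.rest E hE ((C.p 0).qs J.t) * QS.rest E hE ((C.p 0).qs (J.a i))
      rw [← map_mul, ← map_mul, ← map_add, ← map_add]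
      congr 2
      unfold ft
      rw [hf i]
      ring
    · show _ = 0 + _ * 1
      rw [mul_one, zero_add]
      rfl
    · show QS.rest E hE ((C.p 0).qs f) = QS.rest E hE ((C.p 1).qs (J.ft i')) +
        QS.rest E hE ((C.p 0).qs J.t) * QS.rest E hE ((C.p 1).qs (J.a i'))
      rw [← ct, ← cf, ← map_mul, ← map_mul, ← map_add, ← map_add]
      congr 2
      unfold ft
      rw [hf i']
      ring
  x1 := by
    intro l
    fin_cases l <;> rfl
  unit := by
    rw [Matrix.det_fin_two]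
    show IsUnit (1 * QS.rest E hE ((C.p 1).qs (J.a i')) - QS.rest E hE ((C.p 0).qs (J.a i)) * 1)
    rw [one_mul, mul_one, ← map_sub]
    exact hu
  real := by
    have h1 := QS.Rl.rest E hE hr
    have h2 : (fun l : Fin 2 => QS.rest E hE (![(C.p 0).qs J.t, (C.p 0).qs f] l)) =
        ![QS.rest E hE ((C.p 0).qs J.t), QS.rest E hE ((C.p 0).qs f)] := by
      funext l
      fin_cases l <;> rfl
    rw [h2] at h1
    apply h1.anti
    rw [vd_le]
    rintro ⟨l, b⟩
    rw [restL_sup, ← QS.rest_dg, ← QS.rest_dg]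
    have h3 : ∀ A : (C.W.rest E).L, dg (1 : QS (C.W.rest E)) 1 ≤ A := fun A =>
      (Kn (C.W.rest E) 1 le_rfl A).one_mem
    fin_cases l <;> fin_cases b
    · exact h3 _
    · exact le_sup_left
    · exact h3 _
    · exact le_sup_right

/-- **TWO LINES.** -/
theorem exists_fan [Fintype ι] [Nonempty ι] (hK : 1 ≤ J.K) {f : QS S} (hf : ∀ i, J.φ i (J.K - 1) = f)
    (r1 : ∀ i, I (dg (J.a i) 1) J.O ⊥ = 0) (hreal : Rl ![J.t, f] ⊥) {σ : Type} [Fintype σ] (G : σ → QS S)
    (hG : vd G 1 ≤ J.O) (C : CQ S (Sum.elim ![J.t, f] G) 1) :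
    ∃ (i i' : ι) (E : ∀ k, (C.W.F k).Ω → Prop) (hE : 0 < ul (C.W.pr E)) (T : Fan (C.W.rest E) 2),
      T.q = ![QS.rest E hE ((C.p 0).qs J.t), QS.rest E hE ((C.p 0).qs f)] ∧
      T.x = ![![1, QS.rest E hE ((C.p 0).qs (J.a i))], ![1, QS.rest E hE ((C.p 1).qs (J.a i'))]] ∧
      T.f = ![![0, QS.rest E hE ((C.p 0).qs (J.ft i))], ![0, QS.rest E hE ((C.p 1).qs (J.ft i'))]] ∧
      T.ta = 0 := by
  classical
  obtain ⟨i00⟩ := ‹Nonempty ι›
  have : Nonempty ι := ⟨i00⟩
  have hfO : dg f 1 ≤ J.O := by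
    rw [← hf i00]
    exact J.near i00 _ (by omega)
  have hFO : vd (Sum.elim ![J.t, f] G) 1 ≤ J.O := by
    rw [vd_le]
    rintro (l | l)
    · fin_cases l
      · exact J.tO
      · exact hfO
    · exact (dg_le_vd G 1 l).trans hG
  obtain ⟨i, i', E, hE, hu⟩ := spn_copies J.nl J.P J.kn J.pt J.tO J.D1 J.deg one_pos le_rfl
    (fun i l h => by rw [J.far i l h]; exact (Id S 1).zero_mem) J.near
    (fun i i' l h => by rw [J.com i i' l h, sub_self]; exact (Id S 1).zero_mem) J.nr _ hFO C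
  have hKu : IsUnit (J.K : QS (C.W.rest E)) := Pool.Agent.Helper50.CV.isUnit_nat (S := C.W.rest E) J.K (by omega)
  have hu' : IsUnit (QS.rest E hE ((C.p 1).qs (J.a i') - (C.p 0).qs (J.a i))) := by
    have e : QS.rest E hE ((C.p 1).qs (J.a i') - (C.p 0).qs (J.a i)) = (J.K : QS (C.W.rest E)) *
        QS.rest E hE ((C.p 1).qs (tc (J.P i') J.t J.K) - (C.p 0).qs (tc (J.P i) J.t J.K)) := by
      unfold a φ
      rw [map_mul (C.p 1).qs, map_mul (C.p 0).qs, map_natCast, map_natCast, ← mul_sub, map_mul, map_natCast]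
    rw [e]
    exact hKu.mul hu
  have ct : (C.p 1).qs J.t = (C.p 0).qs J.t := C.com 1 0 (Sum.inl 0)
  have cf : (C.p 1).qs f = (C.p 0).qs f := C.com 1 0 (Sum.inl 1)
  have hr : Rl ![(C.p 0).qs J.t, (C.p 0).qs f] (dg ((C.p 0).qs (J.a i)) 1 ⊔ dg ((C.p 1).qs (J.a i')) 1) := by
    obtain ⟨A, hA⟩ : ∃ A : Fin 2 → S.L, A = ![dg (J.a i) 1, dg (J.a i') 1] := ⟨_, rfl⟩
    have h0 : ∀ l : Fin 2, I (A l) (vd (Sum.elim ![J.t, f] G) 1) ⊥ = 0 := by
      intro l
      rw [hA]
      fin_cases l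
      · exact I_zero_mono (r1 i) le_sup_left (hFO.trans le_sup_left)
      · exact I_zero_mono (r1 i') le_sup_left (hFO.trans le_sup_left)
    have h1 : ∀ l : Fin 2, I ((C.p l).map (A l)) C.v ⊥ = 0 := by
      intro l
      have h2 := (C.p l).I_map (A l) (vd (Sum.elim ![J.t, f] G) 1) ⊥
      rw [h0 l, C.p_v, Pj.map_bot] at h2
      exact h2
    have h2 := I_finsup_zero (fun l : Fin 2 => (C.p l).map (A l)) C.v ⊥ bot_le (by
      rw [show C.v = (C.p 0).map (vd (Sum.elim ![J.t, f] G) 1) from rfl, C.ind A]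
      apply Finset.sum_congr rfl
      intro l _
      rw [show (C.p 0).map (vd (Sum.elim ![J.t, f] G) 1) = C.v from rfl, C.h_map_v]) h1
    have h3 : (Finset.univ.sup fun l : Fin 2 => (C.p l).map (A l)) =
        dg ((C.p 0).qs (J.a i)) 1 ⊔ dg ((C.p 1).qs (J.a i')) 1 := by
      rw [hA, (C.p 0).qs_dg, (C.p 1).qs_dg]
      apply le_antisymm
      · apply Finset.sup_le
        intro l _
        fin_cases l
        · exact le_sup_left
        · exact le_sup_right
      · apply sup_le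
        · exact Finset.le_sup (f := fun l : Fin 2 => (C.p l).map
            ((![dg (J.a i) 1, dg (J.a i') 1] : Fin 2 → S.L) l)) (Finset.mem_univ 0)
        · exact Finset.le_sup (f := fun l : Fin 2 => (C.p l).map
            ((![dg (J.a i) 1, dg (J.a i') 1] : Fin 2 → S.L) l)) (Finset.mem_univ 1)
    rw [h3] at h2
    have h4 : vd ![(C.p 0).qs J.t, (C.p 0).qs f] 1 = (C.p 0).map (vd ![J.t, f] 1) := by
      rw [← (C.p 0).qs_vd]
      congr 1
      funext l
      fin_cases l <;> rfl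
    have h5 : vd ![(C.p 0).qs J.t, (C.p 0).qs f] 1 ≤ C.v := by
      rw [h4]
      apply Pj.map_mono
      rw [vd_le]
      intro l
      exact dg_le_vd (Sum.elim ![J.t, f] G) 1 (Sum.inl l)
    have h6 : I (dg ((C.p 0).qs (J.a i)) 1 ⊔ dg ((C.p 1).qs (J.a i')) 1)
        (vd ![(C.p 0).qs J.t, (C.p 0).qs f] 1) ⊥ = 0 := I_zero_mono h2 le_sup_left (h5.trans le_sup_left)
    rw [I_zero_iff_h'] at h6
    unfold Rl
    rw [sup_bot_eq] at h6
    rw [h6, h4]
    have h7 := (C.p 0).h_map (vd ![J.t, f] 1) ⊥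
    rw [Pj.map_bot] at h7
    rw [h7]
    exact hreal
  exact ⟨i, i', E, hE, J.fan C f hf ct cf E hE i i' hu' hr, rfl, rfl, rfl, rfl⟩

/-- **K ≥ 3 IS IMPOSSIBLE** if the derivative of order `K - 2` is known to `(t, φ (K - 1))`. -/
theorem kill_ge3 [Fintype ι] [Nonempty ι] (hK : 2 ≤ J.K) {f : QS S} (hf : ∀ i, J.φ i (J.K - 1) = f)
    (r1 : ∀ i, I (dg (J.a i) 1) J.O ⊥ = 0) (hreal : Rl ![J.t, f] ⊥) {g : QS S}
    (hg : ∀ i, J.φ i (J.K - 2) = g) (hgk : dg g 1 ≤ dg J.t 1 ⊔ dg f 1) : False := by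
  classical
  obtain ⟨iv, hiv⟩ : ∃ iv : QS S, iv = cR S (1 / ((J.K : ℝ) - 1)) := ⟨_, rfl⟩
  have hivk : ∀ A : S.L, dg iv 1 ≤ A := fun A => by rw [hiv, dg_cR]; exact bot_le
  have hKr : (J.K : ℝ) - 1 ≠ 0 := by
    have : (2 : ℝ) ≤ J.K := by exact_mod_cast hK
    linarith
  have hivm : iv * ((J.K : QS S) - 1) = 1 := by
    have h1 : ((J.K : QS S) - 1) = cR S ((J.K : ℝ) - 1) := by
      rw [map_sub, map_natCast, map_one]
    rw [h1, hiv, ← map_mul, one_div, inv_mul_cancel₀ hKr, map_one]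
  obtain ⟨F, hF⟩ : ∃ F : QS S, F = iv * g := ⟨_, rfl⟩
  obtain ⟨c, hc⟩ : ∃ c : ι → QS S, c = fun i => 2 * F - (2 * (J.ft i * J.t) + J.a i * J.t ^ 2) := ⟨_, rfl⟩
  -- known to the curve
  have hcξ : ∀ i, dg (c i) 1 ≤ J.ξ i := by
    intro i
    have h1 : c i = 2 * iv * (Polynomial.hasseDeriv (J.K - 2) (J.P i)).eval 0 := by
      have h2 := J.hasse_eval i (J.K - 2) (-J.t)
      rw [add_neg_cancel] at h2
      have h3 : ∑ j ∈ Finset.range (J.D + 1), ((j + (J.K - 2)).choose j : QS S) * J.φ i (j + (J.K - 2)) *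
          (-J.t) ^ j = ∑ j ∈ Finset.range 3, ((j + (J.K - 2)).choose j : QS S) * J.φ i (j + (J.K - 2)) *
            (-J.t) ^ j := by
        have hzero : ∀ j, 3 ≤ j → ((j + (J.K - 2)).choose j : QS S) * J.φ i (j + (J.K - 2)) * (-J.t) ^ j = 0 := by
          intro j hj
          have h4 : J.φ i (j + (J.K - 2)) = 0 := J.far i _ (by omega)
          rw [h4, mul_zero, zero_mul]
        have hzero' : ∀ j, J.D < j → ((j + (J.K - 2)).choose j : QS S) * J.φ i (j + (J.K - 2)) * (-J.t) ^ j = 0 := by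
          intro j hj
          have h4 : J.φ i (j + (J.K - 2)) = 0 := by
            unfold φ tc
            rw [Polynomial.hasseDeriv_eq_zero_of_lt_natDegree, Polynomial.eval_zero]
            exact lt_of_le_of_lt (J.deg i) (by omega)
          rw [h4, mul_zero, zero_mul]
        rcases le_total (J.D + 1) 3 with h5 | h5
        · apply Finset.sum_subset (Finset.range_mono h5)
          intro j _ hj
          rw [Finset.mem_range, not_lt] at hj
          exact hzero' j (by omega)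
        · symm
          apply Finset.sum_subset (Finset.range_mono h5)
          intro j _ hj
          rw [Finset.mem_range, not_lt] at hj
          exact hzero j hj
      rw [h2, h3, Finset.sum_range_succ, Finset.sum_range_succ, Finset.sum_range_one]
      have e1 : 0 + (J.K - 2) = J.K - 2 := by omega
      have e2 : 1 + (J.K - 2) = J.K - 1 := by omega
      have e3 : 2 + (J.K - 2) = J.K := by omega
      rw [e1, e2, e3, hg i, hf i, Nat.choose_zero_right, Nat.choose_one_right, pow_zero, pow_one, Nat.cast_one,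
        Nat.cast_sub (by omega : 1 ≤ J.K), Nat.cast_one]
      have e4 : (J.K.choose 2 : QS S) * 2 = (J.K : QS S) * ((J.K : QS S) - 1) := by
        have h6 : J.K.choose 2 * 2 = J.K * (J.K - 1) := by
          rw [Nat.choose_two_right]
          exact Nat.div_mul_cancel (Nat.even_mul_pred_self J.K).two_dvd
        have h7 : ((J.K.choose 2 * 2 : ℕ) : QS S) = ((J.K * (J.K - 1) : ℕ) : QS S) := by rw [h6]
        push_cast [Nat.cast_sub (by omega : 1 ≤ J.K)] at h7
        exact h7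
      rw [hc, hF]
      show 2 * (iv * g) - (2 * (J.ft i * J.t) + J.a i * J.t ^ 2) = _
      unfold ft a
      rw [hf i]
      have e5 : 2 * iv * (1 * g * 1 + (J.K - 1) * f * -J.t + (J.K.choose 2 : QS S) * J.φ i J.K * (-J.t) ^ 2) =
          2 * (iv * g) - 2 * (iv * (J.K - 1)) * f * J.t +
            iv * ((J.K.choose 2 : QS S) * 2) * J.φ i J.K * J.t ^ 2 := by ring
      rw [e5, e4]
      have e6 : iv * ((J.K : QS S) * ((J.K : QS S) - 1)) = iv * ((J.K : QS S) - 1) * J.K := by ring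
      rw [e6, hivm]
      ring
    rw [h1]
    refine (Kn S 1 le_rfl _).mul_mem ((Kn S 1 le_rfl _).mul_mem ?_ (hivk _)) (J.hasse_zero_kn i _)
    exact_mod_cast natCast_mem (Kn S 1 le_rfl (J.ξ i)) 2
  have hK1 : 1 ≤ J.K := by omega
  -- known to the line
  have hcb : ∀ i, dg (c i) 1 ≤ dg (J.a i) 1 ⊔ dg (J.ft i) 1 := by
    intro i
    apply known_to_line (τ := dg J.t 1) (ξ := J.ξ i) (sup_le (J.a_kn i) (J.ft_kn hK1 i)) (hcξ i)
    · obtain ⟨B, hB⟩ : ∃ B, B = dg J.t 1 ⊔ (dg (J.a i) 1 ⊔ dg (J.ft i) 1) := ⟨_, rfl⟩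
      rw [← hB]
      have ht : dg J.t 1 ≤ B := by rw [hB]; exact le_sup_left
      have ha : dg (J.a i) 1 ≤ B := by rw [hB]; exact le_sup_left.trans le_sup_right
      have hft : dg (J.ft i) 1 ≤ B := by rw [hB]; exact le_sup_right.trans le_sup_right
      have hfB : dg f 1 ≤ B := by
        have e : f = J.ft i + J.t * J.a i := by
          unfold ft
          rw [hf i]
          ring
        rw [e]
        exact (Kn S 1 le_rfl B).add_mem hft ((Kn S 1 le_rfl B).mul_mem ht ha)
      have hFB : dg F 1 ≤ B := by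
        rw [hF]
        exact (Kn S 1 le_rfl B).mul_mem (hivk B) (hgk.trans (sup_le ht hfB))
      have h2 : (2 : QS S) ∈ Kn S 1 le_rfl B := by exact_mod_cast natCast_mem (Kn S 1 le_rfl B) 2
      rw [hc]
      exact (Kn S 1 le_rfl B).sub_mem ((Kn S 1 le_rfl B).mul_mem h2 hFB)
        ((Kn S 1 le_rfl B).add_mem ((Kn S 1 le_rfl B).mul_mem h2 ((Kn S 1 le_rfl B).mul_mem hft ht))
          ((Kn S 1 le_rfl B).mul_mem ha ((Kn S 1 le_rfl B).pow_mem ht 2)))
    · rw [J.treal i]
      apply le_antisymm _ (h_dg_le_one _ _)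
      exact (J.treal i).symm.le.trans (h_anti (sup_le (J.a_kn i) (J.ft_kn hK1 i)))
  -- the fan
  obtain ⟨i00⟩ := ‹Nonempty ι›
  have : Nonempty ι := ⟨i00⟩
  have hFO : dg F 1 ≤ J.O := by
    rw [hF]
    refine (Kn S 1 le_rfl J.O).mul_mem (hivk _) ?_
    rw [← hg i00]
    exact J.near i00 _ (by omega)
  obtain ⟨C⟩ := exists_CQ (Sum.elim ![J.t, f] (fun _ : Unit => F)) 1
  obtain ⟨i, i', E, hE, T, hq, hx, hft, hta⟩ := J.exists_fan hK1 hf r1 hreal (fun _ : Unit => F)
    (by rw [vd_le]; exact fun _ => hFO) C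
  have cF : (C.p 1).qs F = (C.p 0).qs F := C.com 1 0 (Sum.inr ())
  have ct : (C.p 1).qs J.t = (C.p 0).qs J.t := C.com 1 0 (Sum.inl 0)
  have hmapd : ∀ (u : Fin 2) (z : QS S), dg (QS.rest E hE ((C.p u).qs z)) 1 = restL E hE ((C.p u).map (dg z 1)) := by
    intro u z
    rw [QS.rest_dg, (C.p u).qs_dg]
  have hT0 : T.q T.ta = QS.rest E hE ((C.p 0).qs J.t) := by rw [hta, hq]; rfl
  refine kill3 T 1 (by rw [hta]; decide) (QS.rest E hE ((C.p 0).qs F)) ?_ one_pos le_rfl ?_
  · rw [hmapd]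
    have h1 : dg F 1 ≤ dg J.t 1 ⊔ dg f 1 := by
      rw [hF]
      exact (Kn S 1 le_rfl _).mul_mem (hivk _) hgk
    refine (restL_mono E hE ((C.p 0).map_mono h1)).trans ?_
    rw [Pj.map_sup, restL_sup, ← hmapd, ← hmapd]
    apply sup_le
    · have h2 := dg_le_vd T.q 1 0
      rw [hq] at h2
      rw [hq]
      exact h2
    · have h2 := dg_le_vd T.q 1 1
      rw [hq] at h2
      rw [hq]
      exact h2
  · intro l
    fin_cases l
    · refine ⟨QS.rest E hE ((C.p 0).qs (c i)), ?_, ?_⟩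
      · rw [hmapd]
        refine (restL_mono E hE ((C.p 0).map_mono (hcb i))).trans ?_
        rw [Pj.map_sup, restL_sup, ← hmapd, ← hmapd]
        apply sup_le_sup
        · have h2 := dg_le_vd (T.x 0) 1 1
          rw [hx] at h2
          show _ ≤ vd (T.x 0) 1
          rw [hx]
          exact h2
        · have h2 := dg_le_vd (T.f 0) 1 1
          rw [hft] at h2
          show _ ≤ vd (T.f 0) 1
          rw [hft]
          exact h2
      · have e1 : T.f 0 1 = QS.rest E hE ((C.p 0).qs (J.ft i)) := by rw [hft]; rfl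
        have e2 : T.x 0 1 = QS.rest E hE ((C.p 0).qs (J.a i)) := by rw [hx]; rfl
        have e3 : T.t = QS.rest E hE ((C.p 0).qs J.t) := hT0
        show 2 * QS.rest E hE ((C.p 0).qs F) - (QS.rest E hE ((C.p 0).qs (c i)) + 2 * (T.f 0 1 * T.t) +
          T.x 0 1 * T.t ^ 2) ∈ _
        rw [e1, e2, e3, hc]
        show 2 * QS.rest E hE ((C.p 0).qs F) - (QS.rest E hE ((C.p 0).qs (2 * F - (2 * (J.ft i * J.t) +
          J.a i * J.t ^ 2))) + _ + _) ∈ _
        simp only [map_sub, map_mul, map_add, map_pow, map_ofNat]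
        have e4 : ∀ a b d e : QS (C.W.rest E), 2 * a - (2 * a - (2 * (b * d) + e * d ^ 2) + 2 * (b * d) +
            e * d ^ 2) = 0 := by
          intro a b d e
          ring
        rw [e4]
        exact (Id _ _).zero_mem
    · refine ⟨QS.rest E hE ((C.p 1).qs (c i')), ?_, ?_⟩
      · rw [hmapd]
        refine (restL_mono E hE ((C.p 1).map_mono (hcb i'))).trans ?_
        rw [Pj.map_sup, restL_sup, ← hmapd, ← hmapd]
        apply sup_le_sup
        · have h2 := dg_le_vd (T.x 1) 1 1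
          rw [hx] at h2
          show _ ≤ vd (T.x 1) 1
          rw [hx]
          exact h2
        · have h2 := dg_le_vd (T.f 1) 1 1
          rw [hft] at h2
          show _ ≤ vd (T.f 1) 1
          rw [hft]
          exact h2
      · have e1 : T.f 1 1 = QS.rest E hE ((C.p 1).qs (J.ft i')) := by rw [hft]; rfl
        have e2 : T.x 1 1 = QS.rest E hE ((C.p 1).qs (J.a i')) := by rw [hx]; rfl
        have e3 : T.t = QS.rest E hE ((C.p 1).qs J.t) := hT0.trans (by rw [ct])
        show 2 * QS.rest E hE ((C.p 0).qs F) - (QS.rest E hE ((C.p 1).qs (c i')) + 2 * (T.f 1 1 * T.t) +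
          T.x 1 1 * T.t ^ 2) ∈ _
        rw [e1, e2, e3, hc, ← cF]
        show 2 * QS.rest E hE ((C.p 1).qs F) - (QS.rest E hE ((C.p 1).qs (2 * F - (2 * (J.ft i' * J.t) +
          J.a i' * J.t ^ 2))) + _ + _) ∈ _
        simp only [map_sub, map_mul, map_add, map_pow, map_ofNat]
        have e4 : ∀ a b d e : QS (C.W.rest E), 2 * a - (2 * a - (2 * (b * d) + e * d ^ 2) + 2 * (b * d) +
            e * d ^ 2) = 0 := by
          intro a b d e
          ring
        rw [e4]
        exact (Id _ _).zero_mem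

end Jd

end

end Pool.Agent.Helper10.JET
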