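import Pool.Agent.Helper10.JET.Near

/-! Corners with one unit direction: the curve of a zoomed system. In the coordinates `t = t0 + 2^(-s n) τ`,
`y = Fr(τ) + 2^(-w s n) η` of a box of scale `s` (`Fr` = the jets of the box of order less than `w`) the curve is
`η = Q(τ)` and the coefficients of `Q` of degree `m > w` are of level `(m - w) s`. -/

set_option autoImplicit false

namespace Pool.Agent.Helper10.JET

open Finset Filter Topology Pool.Agent.Helper69.RK Pool.Agent.Helper31.EC Pool.Agent.Helper31.EC.Sp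
open Pool.Agent.Helper31.EC.QS Pool.Agent.Helper57.TA Pool.Agent.Helper5.DO

noncomputable section

variable {S : Sp}

/-- the frame of a box: jets of order less than `w`, in the variable `τ` -/
def Fr (b : Polynomial (QS S)) (t0 : QS S) (w s : ℝ) : Polynomial (QS S) :=
  ∑ m ∈ (Finset.range (b.natDegree + 1)).filter (fun m : ℕ => (m : ℝ) < w),
    Polynomial.monomial m (tc b t0 m * sc S (m * s))

theorem Fr_coeff (b : Polynomial (QS S)) (t0 : QS S) (w s : ℝ) (m : ℕ) :
    (Fr b t0 w s).coeff m = if (m : ℝ) < w then tc b t0 m * sc S (m * s) else 0 := by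
  unfold Fr
  rw [Polynomial.finsetSum_coeff]
  simp only [Polynomial.coeff_monomial]
  rw [Finset.sum_ite_eq' ((Finset.range (b.natDegree + 1)).filter (fun m : ℕ => (m : ℝ) < w)) m]
  by_cases hm : (m : ℝ) < w
  · rw [if_pos hm]
    by_cases hd : m ≤ b.natDegree
    · rw [if_pos (Finset.mem_filter.mpr ⟨Finset.mem_range.mpr (Nat.lt_succ_of_le hd), hm⟩)]
    · rw [if_neg (fun h => hd (Nat.lt_succ_iff.mp (Finset.mem_range.mp (Finset.mem_filter.mp h).1)))]
      have h1 : tc b t0 m = 0 := by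
        unfold tc
        rw [Polynomial.hasseDeriv_eq_zero_of_lt_natDegree _ _ (not_le.mp hd), Polynomial.eval_zero]
      rw [h1, zero_mul]
  · have h0 : m ∉ (Finset.range (b.natDegree + 1)).filter (fun m : ℕ => (m : ℝ) < w) := by
      rw [Finset.mem_filter]
      exact fun h => hm h.2
    rw [if_neg hm, if_neg h0]

theorem PU_Fr {A : S.L} {b : Polynomial (QS S)} (hb : b ∈ PU A) {t0 : QS S} (h0 : dg t0 1 ≤ A) (w s : ℝ) :
    Fr b t0 w s ∈ PU A := by
  intro m
  rw [Fr_coeff]
  split_ifs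
  · refine (Kn S 1 le_rfl A).mul_mem (tc_known hb h0 m) ?_
    show dg (sc S (m * s)) 1 ≤ A
    rw [dg_sc]
    exact bot_le
  · exact (Kn S 1 le_rfl A).zero_mem

/-- evaluation by Taylor coefficients -/
theorem eval_tc (P : Polynomial (QS S)) (t0 u : QS S) {N : ℕ} (hN : P.natDegree ≤ N) :
    P.eval (t0 + u) = ∑ m ∈ Finset.range (N + 1), tc P t0 m * u ^ m := by
  have h1 : P.eval (t0 + u) = (Polynomial.taylor t0 P).eval u := by
    rw [Polynomial.taylor_eval, add_comm]
  rw [h1, Polynomial.eval_eq_sum_range' (n := N + 1) (by rw [Polynomial.natDegree_taylor]; omega)]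
  apply Finset.sum_congr rfl
  intro m _
  rw [Polynomial.taylor_coeff]
  rfl

/-- **THE CURVE OF A ZOOM.** -/
theorem zoom_curve {ξ β : S.L} {P b : Polynomial (QS S)} (hP : P ∈ PU ξ) (hb : b ∈ PU β) {t0 τ : QS S} {w s : ℝ}
    (hw : 0 ≤ w) (hs : 0 ≤ s) (hws : w * s ≤ 1)
    (hjet : ∀ m : ℕ, (m : ℝ) < w → tc P t0 m - tc b t0 m ∈ Id S ((w - m) * s)) :
    ∃ Q : Polynomial (QS S), Q ∈ PU (ξ ⊔ β ⊔ dg t0 1) ∧ Q.natDegree ≤ max P.natDegree b.natDegree ∧
      (∀ m : ℕ, w ≤ m → Q.coeff m = sc S ((m - w) * s) * tc P t0 m) ∧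
      (∀ m : ℕ, (m : ℝ) < w → sc S ((w - m) * s) * Q.coeff m = tc P t0 m - tc b t0 m) ∧
      P.eval (t0 + sc S s * τ) = (Fr b t0 w s).eval τ + sc S (w * s) * Q.eval τ := by
  classical
  obtain ⟨A, hA⟩ : ∃ A, A = ξ ⊔ β ⊔ dg t0 1 := ⟨_, rfl⟩
  have h1 : ∀ m : ℕ, ∃ c : QS S, dg c 1 ≤ A ∧ (w ≤ m → c = sc S ((m - w) * s) * tc P t0 m) ∧
      ((m : ℝ) < w → sc S ((w - m) * s) * c = tc P t0 m - tc b t0 m) := by
    intro m
    have kP : dg (tc P t0 m) 1 ≤ A := by
      rw [hA]
      exact tc_known (PU_mono (le_sup_left.trans le_sup_left) hP) le_sup_right m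
    have kb : dg (tc b t0 m) 1 ≤ A := by
      rw [hA]
      exact tc_known (PU_mono (le_sup_right.trans le_sup_left) hb) le_sup_right m
    rcases lt_or_ge (m : ℝ) w with hm | hm
    · have h2 : 0 ≤ (w - m) * s := mul_nonneg (by linarith) hs
      have h3 : (w - m) * s ≤ 1 := by
        have : (0 : ℝ) ≤ m * s := by positivity
        nlinarith
      obtain ⟨c, hc, hc'⟩ := exists_div' h2 h3 (hjet m hm)
      refine ⟨c, hc'.trans ((dg_sub_le _ _ le_rfl).trans (sup_le kP kb)), fun h => absurd hm (not_lt.mpr h),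
        fun _ => hc.symm⟩
    · refine ⟨sc S ((m - w) * s) * tc P t0 m, ?_, fun _ => rfl, fun h => absurd h (not_lt.mpr hm)⟩
      refine (Kn S 1 le_rfl A).mul_mem ?_ kP
      show dg (sc S ((m - w) * s)) 1 ≤ A
      rw [dg_sc]
      exact bot_le
  choose c hc1 hc2 hc3 using h1
  obtain ⟨N, hN⟩ : ∃ N, N = max P.natDegree b.natDegree := ⟨_, rfl⟩
  have hPN : P.natDegree ≤ N := by rw [hN]; exact le_max_left _ _
  obtain ⟨Q, hQ⟩ : ∃ Q : Polynomial (QS S), Q = ∑ m ∈ Finset.range (N + 1), Polynomial.monomial m (c m) := ⟨_, rfl⟩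
  have hQc : ∀ m, Q.coeff m = if m ∈ Finset.range (N + 1) then c m else 0 := by
    intro m
    rw [hQ, Polynomial.finsetSum_coeff]
    simp only [Polynomial.coeff_monomial]
    exact Finset.sum_ite_eq' (Finset.range (N + 1)) m c
  have htc0 : ∀ m, m ∉ Finset.range (N + 1) → tc P t0 m = 0 ∧ tc b t0 m = 0 := by
    intro m hm
    have h2 : N < m := by
      rw [Finset.mem_range, not_lt] at hm
      omega
    have h3 : P.natDegree < m := lt_of_le_of_lt hPN h2
    have h4 : b.natDegree < m := lt_of_le_of_lt (by rw [hN]; exact le_max_right _ _) h2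
    constructor
    · unfold tc
      rw [Polynomial.hasseDeriv_eq_zero_of_lt_natDegree _ _ h3, Polynomial.eval_zero]
    · unfold tc
      rw [Polynomial.hasseDeriv_eq_zero_of_lt_natDegree _ _ h4, Polynomial.eval_zero]
  refine ⟨Q, ?_, ?_, ?_, ?_, ?_⟩
  · intro m
    rw [hQc, ← hA]
    split_ifs
    · exact hc1 m
    · exact (Kn S 1 le_rfl A).zero_mem
  · rw [hQ, ← hN]
    refine Polynomial.natDegree_sum_le_of_forall_le _ _ fun m hm => ?_
    exact (Polynomial.natDegree_monomial_le _).trans (Nat.lt_succ_iff.mp (Finset.mem_range.mp hm))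
  · intro m hm
    rw [hQc]
    split_ifs with h2
    · exact hc2 m hm
    · rw [(htc0 m h2).1, mul_zero]
  · intro m hm
    rw [hQc]
    split_ifs with h2
    · exact hc3 m hm
    · rw [(htc0 m h2).1, (htc0 m h2).2, mul_zero, sub_zero]
  · have hFN : (Fr b t0 w s).natDegree ≤ N := by
      unfold Fr
      refine Polynomial.natDegree_sum_le_of_forall_le _ _ fun m hm => ?_
      refine (Polynomial.natDegree_monomial_le _).trans ?_
      have h2 := Nat.lt_succ_iff.mp (Finset.mem_range.mp (Finset.mem_filter.mp hm).1)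
      rw [hN]
      exact h2.trans (le_max_right _ _)
    have hQN : Q.natDegree ≤ N := by
      rw [hQ]
      refine Polynomial.natDegree_sum_le_of_forall_le _ _ fun m hm => ?_
      exact (Polynomial.natDegree_monomial_le _).trans (Nat.lt_succ_iff.mp (Finset.mem_range.mp hm))
    rw [eval_tc P t0 _ hPN, Polynomial.eval_eq_sum_range' (n := N + 1) (by omega) τ,
      Polynomial.eval_eq_sum_range' (n := N + 1) (by omega) τ, Finset.mul_sum, ← Finset.sum_add_distrib]
    apply Finset.sum_congr rfl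
    intro m hm
    rw [Fr_coeff, hQc, if_pos hm, mul_pow, ← sc_nat_mul hs]
    rcases lt_or_ge (m : ℝ) w with h2 | h2
    · rw [if_pos h2]
      have h3 : sc S (w * s) = sc S (m * s) * sc S ((w - m) * s) := by
        rw [← sc_add (by positivity) (mul_nonneg (by linarith) hs)]
        congr 1
        ring
      have h4 := hc3 m h2
      rw [h3]
      have e : sc S (↑m * s) * sc S ((w - ↑m) * s) * (c m * τ ^ m) =
          sc S (↑m * s) * (sc S ((w - ↑m) * s) * c m) * τ ^ m := by ring
      rw [e, h4]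
      ring
    · rw [if_neg (not_lt.mpr h2), zero_mul, zero_add, hc2 m h2]
      have h3 : sc S (m * s) = sc S (w * s) * sc S ((m - w) * s) := by
        rw [← sc_add (by positivity) (mul_nonneg (by linarith) hs)]
        congr 1
        ring
      rw [h3]
      ring

/-- coefficients of the zoomed curve of degree greater than `w` are small -/
theorem zoom_far {P : Polynomial (QS S)} {t0 : QS S} {w s : ℝ} (hs : 0 ≤ s) {m : ℕ} (hm : w < m) {Q : Polynomial (QS S)}
    (hQ : Q.coeff m = sc S ((m - w) * s) * tc P t0 m) : Q.coeff m ∈ Id S ((m - w) * s) := by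
  rw [hQ]
  exact (Id S _).mul_mem_right _ (sc_mem (mul_nonneg (by linarith) hs))

/-- if the coefficients of degree greater than `w` are small then so are the derivatives -/
theorem tc_small_of_coeff {Q : Polynomial (QS S)} {w κ : ℝ} (h : ∀ m : ℕ, w < m → Q.coeff m ∈ Id S κ) (τ : QS S)
    {m : ℕ} (hm : w < m) : tc Q τ m ∈ Id S κ := by
  unfold tc
  rw [Polynomial.eval_eq_sum_range]
  apply (Id S κ).sum_mem
  intro l _
  rw [Polynomial.hasseDeriv_coeff]
  refine (Id S κ).mul_mem_right _ ((Id S κ).mul_mem_left _ (h _ ?_))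
  push_cast
  have : (0 : ℝ) ≤ l := Nat.cast_nonneg l
  linarith

end

end Pool.Agent.Helper10.JET
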