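import Pool.Agent.Helper31.EC.Uns
import Pool.Agent.Helper57.TA.Sc

/-! Exact entropy calculus: quotients on events. If `c0 + c1 a` is small of level `r` and `c1` is not, then on an event
of positive probability `a` is known to `c0, c1` up to a positive level, and any two such functions agree up to this
level. -/

set_option autoImplicit false

namespace Pool.Agent.Helper10.JET

open Finset Filter Topology Pool.Agent.Helper69.RK Pool.Agent.Helper31.EC Pool.Agent.Helper31.EC.Sp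
open Pool.Agent.Helper31.EC.QS Pool.Agent.Helper57.TA

noncomputable section

variable {S : Sp}

/-- the support of a restricted space -/
theorem supp_rest (E : ∀ k, (S.F k).Ω → Prop) (hE : 0 < ul (S.pr E)) :
    ∀ᶠ k in UF, ∀ ω, ((S.rest E).F k).μ ω ≠ 0 → (S.F k).μ ω ≠ 0 ∧ E k ω := by
  filter_upwards [(ul_tendsto (UB_pr E)).eventually (lt_mem_nhds (half_lt_self hE))] with k hk ω hω
  have h1 := (S.F k).rest_supp (E k) ω hω
  exact ⟨h1.1, h1.2 (ne_of_gt ((half_pos hE).trans hk))⟩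

/-- a function which is not small is large on an event -/
theorem exists_large {c : TR S} {r : ℝ} (hc : ¬ TR.Ag r c 0) :
    ∃ δ : ℝ, 0 < δ ∧ δ ≤ 1 ∧ 0 < ul (S.pr fun k ω => S.dl (r - δ) k < |TR.ev c k ω|) := by
  rw [TR.ag_iff_levels] at hc
  push Not at hc
  obtain ⟨δ, hδ, hn⟩ := hc
  refine ⟨min δ 1, lt_min hδ one_pos, min_le_right _ _, ?_⟩
  have h1 : ¬ Typ (fun k ω => |TR.ev c k ω - TR.ev (0 : TR S) k ω| ≤ S.dl (r - min δ 1) k) := by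
    intro h
    apply hn
    refine h.mono (Eventually.of_forall fun k ω _ hω => hω.trans (S.dl_anti ?_ k))
    have := min_le_left δ 1
    linarith
  rcases typ_or (S := S) (fun k ω => |TR.ev c k ω - TR.ev (0 : TR S) k ω| ≤ S.dl (r - min δ 1) k) with h2 | h2
  · exact absurd h2 h1
  · have h3 : (fun k (ω : (S.F k).Ω) => ¬ |TR.ev c k ω - TR.ev (0 : TR S) k ω| ≤ S.dl (r - min δ 1) k) =
        fun k ω => S.dl (r - min δ 1) k < |TR.ev c k ω| := by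
      funext k ω
      rw [TR.ev_zero, sub_zero, not_le]
    rw [h3] at h2
    exact h2

/-- a function which is nowhere small of level `ρ` -/
def Lg (c : QS S) (ρ : ℝ) : Prop :=
  ∃ γ : TR S, QS.mk γ = c ∧ ∀ᶠ k in UF, ∀ ω, (S.F k).μ ω ≠ 0 → S.dl ρ k < |TR.ev γ k ω|

/-- division by a large function: levels -/
theorem Lg.mem {c x : QS S} {r δ : ℝ} (hr : r ≤ 1) (hδ : δ ≤ 1) (hc : Lg c (r - δ)) (h : c * x ∈ Id S r) :
    x ∈ Id S δ := by
  obtain ⟨γ, rfl, hγ⟩ := hc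
  obtain ⟨χ, rfl⟩ := mk_surj x
  rw [← map_mul, mk_mem_Id hr] at h
  rw [mk_mem_Id hδ]
  obtain ⟨A, K, hA, hK, hh⟩ := h
  refine ⟨A, K, hA, hK, ?_⟩
  filter_upwards [hh, hγ] with k hk hg ω a b
  have e1 := hk ω a b
  have e2 := hg ω a
  rw [TR.ev_zero, sub_zero, TR.ev_mul, abs_mul] at e1
  rw [TR.ev_zero, sub_zero]
  have hdd : S.dl r k = S.dl (r - δ) k * S.dl δ k := by
    rw [← S.dl_add]; congr 1; ring
  have h5 : S.dl (r - δ) k * |TR.ev χ k ω| ≤ S.dl (r - δ) k * (K k * S.dl δ k) := by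
    calc _ ≤ |TR.ev γ k ω| * |TR.ev χ k ω| := mul_le_mul_of_nonneg_right e2.le (abs_nonneg _)
      _ ≤ _ := e1
      _ = _ := by rw [hdd]; ring
  exact le_of_mul_le_mul_left h5 (S.dl_pos _ _)

/-- division by a large function: knowledge -/
theorem Lg.dg_le {c0 c1 a : QS S} {r δ : ℝ} (hr : r ≤ 1) (hδ : δ ≤ 1) (hc : Lg c1 (r - δ))
    (h : c0 + c1 * a ∈ Id S r) : QS.dg a δ ≤ QS.dg c0 1 ⊔ QS.dg c1 1 := by
  obtain ⟨γ1, rfl, hγ⟩ := hc
  obtain ⟨γ0, rfl⟩ := mk_surj c0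
  obtain ⟨α, rfl⟩ := mk_surj a
  rw [← map_mul, ← map_add, mk_mem_Id hr] at h
  obtain ⟨A, K, hA, hK, hh⟩ := h
  obtain ⟨M, hM, hM'⟩ := α.2
  rw [dg_mk _ hδ, dg_mk _ le_rfl, dg_mk _ le_rfl]
  unfold TR.dg
  apply VV.dg_le_dg2 _ _ _ _ _ _ A hA (fun k => 1 + (K k + K k) + M k)
    (((S.Sub_const zero_le_one).add (hK.add hK)).add hM)
  filter_upwards [hh, hM', hγ, hK.1, hM.1] with k hk hMk hs hK0 hM0 ω ω' a b e e' _ g0 g1 i
  have ea := hk ω a e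
  have eb := hk ω' b e'
  rw [TR.ev_zero, sub_zero, TR.ev_add, TR.ev_mul] at ea eb
  have g0' : |TR.ev γ0 k ω - TR.ev γ0 k ω'| ≤ S.dl 1 k := g0 0
  have g1' : |TR.ev γ1 k ω - TR.ev γ1 k ω'| ≤ S.dl 1 k := g1 0
  have hm' : |TR.ev α k ω'| ≤ M k := hMk ω' b
  have hl := hs ω a
  have hd1 : S.dl 1 k ≤ S.dl r k := S.dl_anti hr k
  have key : |TR.ev γ1 k ω| * |TR.ev α k ω - TR.ev α k ω'| ≤ (1 + (K k + K k) + M k) * S.dl r k := by
    rw [← abs_mul]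
    have e1 : TR.ev γ1 k ω * (TR.ev α k ω - TR.ev α k ω') =
        (TR.ev γ0 k ω + TR.ev γ1 k ω * TR.ev α k ω) - (TR.ev γ0 k ω' + TR.ev γ1 k ω' * TR.ev α k ω') -
          (TR.ev γ0 k ω - TR.ev γ0 k ω') - (TR.ev γ1 k ω - TR.ev γ1 k ω') * TR.ev α k ω' := by ring
    rw [e1]
    have e2 : |(TR.ev γ1 k ω - TR.ev γ1 k ω') * TR.ev α k ω'| ≤ S.dl r k * M k := by
      rw [abs_mul]
      exact mul_le_mul (g1'.trans hd1) hm' (abs_nonneg _) (S.dl_pos _ _).le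
    have e3 := abs_sub (TR.ev γ0 k ω + TR.ev γ1 k ω * TR.ev α k ω) (TR.ev γ0 k ω' + TR.ev γ1 k ω' * TR.ev α k ω')
    have e4 := abs_sub ((TR.ev γ0 k ω + TR.ev γ1 k ω * TR.ev α k ω) - (TR.ev γ0 k ω' + TR.ev γ1 k ω' * TR.ev α k ω'))
      (TR.ev γ0 k ω - TR.ev γ0 k ω')
    have e5 := abs_sub ((TR.ev γ0 k ω + TR.ev γ1 k ω * TR.ev α k ω) -
      (TR.ev γ0 k ω' + TR.ev γ1 k ω' * TR.ev α k ω') - (TR.ev γ0 k ω - TR.ev γ0 k ω'))
      ((TR.ev γ1 k ω - TR.ev γ1 k ω') * TR.ev α k ω')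
    have e6 := g0'.trans hd1
    have e7 : (1 + (K k + K k) + M k) * S.dl r k = S.dl r k + (K k * S.dl r k + K k * S.dl r k) + S.dl r k * M k := by
      ring
    rw [e7]
    linarith
  show |TR.ev α k ω - TR.ev α k ω'| ≤ _
  have hdd : S.dl r k = S.dl (r - δ) k * S.dl δ k := by
    rw [← S.dl_add]; congr 1; ring
  have h5 : S.dl (r - δ) k * |TR.ev α k ω - TR.ev α k ω'| ≤
      S.dl (r - δ) k * ((1 + (K k + K k) + M k) * S.dl δ k) := by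
    calc _ ≤ |TR.ev γ1 k ω| * |TR.ev α k ω - TR.ev α k ω'| := mul_le_mul_of_nonneg_right hl.le (abs_nonneg _)
      _ ≤ _ := key
      _ = _ := by rw [hdd]; ring
  exact le_of_mul_le_mul_left h5 (S.dl_pos _ _)

/-- a function which is not small is large on an event -/
theorem exists_Lg {c : QS S} {r : ℝ} (hr : r ≤ 1) (hc : c ∉ Id S r) :
    ∃ (δ : ℝ) (E : ∀ k, (S.F k).Ω → Prop) (hE : 0 < ul (S.pr E)), 0 < δ ∧ δ ≤ 1 ∧
      Lg (QS.rest E hE c) (r - δ) := by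
  obtain ⟨γ, rfl⟩ := mk_surj c
  rw [mk_mem_Id hr] at hc
  obtain ⟨δ, hδ0, hδ1, hE⟩ := exists_large hc
  refine ⟨δ, _, hE, hδ0, hδ1, TR.rest _ γ, (QS.rest_mk _ hE γ).symm, ?_⟩
  filter_upwards [supp_rest _ hE] with k hk ω hω
  exact (hk ω hω).2

/-- restriction keeps smallness -/
theorem rest_mem_Id (E : ∀ k, (S.F k).Ω → Prop) (hE : 0 < ul (S.pr E)) {f : QS S} {r : ℝ} (hr : r ≤ 1)
    (hf : f ∈ Id S r) : QS.rest E hE f ∈ Id (S.rest E) r := by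
  obtain ⟨f, rfl⟩ := mk_surj f
  rw [mk_mem_Id hr] at hf
  rw [QS.rest_mk, mk_mem_Id hr]
  have h1 := TR.Ag.rest E hE hf
  rwa [map_zero] at h1

/-- quotients on events -/
theorem exists_ratio {c1 : QS S} {r : ℝ} (hr : r ≤ 1) (hc : c1 ∉ Id S r) (c0 : QS S) :
    ∃ (δ : ℝ) (E : ∀ k, (S.F k).Ω → Prop) (hE : 0 < ul (S.pr E)), 0 < δ ∧ δ ≤ 1 ∧
      ∀ a : QS S, c0 + c1 * a ∈ Id S r →
        QS.dg (QS.rest E hE a) δ ≤ restL E hE (QS.dg c0 1 ⊔ QS.dg c1 1) ∧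
        ∀ a' : QS S, c0 + c1 * a' ∈ Id S r → QS.rest E hE a - QS.rest E hE a' ∈ Id (S.rest E) δ := by
  obtain ⟨δ, E, hE, hδ0, hδ1, hL⟩ := exists_Lg hr hc
  refine ⟨δ, E, hE, hδ0, hδ1, fun a ha => ⟨?_, fun a' ha' => ?_⟩⟩
  · rw [restL_sup, ← QS.rest_dg, ← QS.rest_dg]
    apply hL.dg_le hr hδ1
    rw [← map_mul, ← map_add]
    exact rest_mem_Id E hE hr ha
  · apply hL.mem hr hδ1
    rw [← map_sub, ← map_mul]
    apply rest_mem_Id E hE hr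
    have h1 := (Id S r).sub_mem ha ha'
    have e : c0 + c1 * a - (c0 + c1 * a') = c1 * (a - a') := by ring
    rwa [e] at h1

/-- smallness is local -/
theorem mem_Id_of_local {f : QS S} {r : ℝ} (hr : r ≤ 1)
    (h : ∀ (E : ∀ k, (S.F k).Ω → Prop) (hE : 0 < ul (S.pr E)) (δ : ℝ), 0 < δ → δ ≤ 1 →
      Lg (QS.rest E hE f) (r - δ) → False) : f ∈ Id S r := by
  by_contra hc
  obtain ⟨δ, E, hE, hδ0, hδ1, hL⟩ := exists_Lg hr hc
  exact h E hE δ hδ0 hδ1 hL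

end

end Pool.Agent.Helper10.JET
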