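import Pool.Agent.Helper10.JET.Tay
import Pool.Agent.Helper10.JET.Rat
import Pool.Agent.Helper5.DO.Pro

/-! Corners with one unit direction: if all derivatives of a function along the curves are known to the point and
common to all types, then the polynomial of the function is a label; without labels the function is a polynomial in the
time with coefficients of rate zero. -/

set_option autoImplicit false

namespace Pool.Agent.Helper10.JET

open Finset Filter Topology Pool.Agent.Helper69.RK Pool.Agent.Helper31.EC Pool.Agent.Helper31.EC.Sp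
open Pool.Agent.Helper31.EC.QS Pool.Agent.Helper57.TA Pool.Agent.Helper5.DO

noncomputable section

variable {S : Sp} {ι : Type}

/-- NO LABEL: an information known to the point and to all types is trivial -/
def NL (O : S.L) (ξ : ι → S.L) : Prop := ∀ L : S.L, L ≤ O → (∀ i, L ≤ ξ i) → L = ⊥

/-- NO LABEL on events -/
def NLE (O : S.L) (ξ : ι → S.L) : Prop :=
  ∀ (E : ∀ k, (S.F k).Ω → Prop) (hE : 0 < ul (S.pr E)), NL (restL E hE O) fun i => restL E hE (ξ i)

/-- the Taylor coefficients of a curve at the point -/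
def tc (P : Polynomial (QS S)) (t : QS S) (m : ℕ) : QS S := (Polynomial.hasseDeriv m P).eval t

theorem tc_zero (P : Polynomial (QS S)) (t : QS S) : tc P t 0 = P.eval t := by
  unfold tc
  rw [Polynomial.hasseDeriv_zero']

/-- the coefficients from the Taylor coefficients at `t` -/
theorem coeff_tc (P : Polynomial (QS S)) (t : QS S) (m : ℕ) (N : ℕ) (hN : P.natDegree ≤ N) :
    P.coeff m = ∑ l ∈ Finset.range (N + 1), (l.choose m : QS S) * tc P t l * (-t) ^ (l - m) := by
  have h1 : Polynomial.taylor (-t) (Polynomial.taylor t P) = P := by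
    rw [Polynomial.taylor_taylor, neg_add_cancel, Polynomial.taylor_zero]
  have h2 : P.coeff m = (Polynomial.hasseDeriv m (Polynomial.taylor t P)).eval (-t) := by
    rw [← Polynomial.taylor_coeff, h1]
  rw [h2]
  obtain ⟨q, hq⟩ : ∃ q, q = Polynomial.taylor t P := ⟨_, rfl⟩
  rw [← hq]
  have hqd : q.natDegree ≤ N := by rw [hq, Polynomial.natDegree_taylor]; exact hN
  have hqc : ∀ l, tc P t l = q.coeff l := fun l => by rw [hq, Polynomial.taylor_coeff]; rfl
  rw [Polynomial.hasseDeriv_apply, Polynomial.sum_over_range' _ _ (N + 1) (Nat.lt_succ_of_le hqd)]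
  · rw [Polynomial.eval_finsetSum]
    apply Finset.sum_congr rfl
    intro l _
    rw [Polynomial.eval_monomial, hqc]
  · intro n
    rw [mul_zero, Polynomial.monomial_zero_right]

theorem dg_neg_le (f : QS S) {r : ℝ} (hr : r ≤ 1) : dg (-f) r ≤ dg f r :=
  (Kn S r hr (dg f r)).neg_mem (mem_Kn.mpr le_rfl)

/-- coefficients known to the point -/
theorem coeff_known {P : Polynomial (QS S)} {t : QS S} {O : S.L} {ρ : ℝ} (hρ : ρ ≤ 1) (ht : dg t ρ ≤ O)
    (hF : ∀ l, dg (tc P t l) ρ ≤ O) (m : ℕ) : dg (P.coeff m) ρ ≤ O := by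
  rw [coeff_tc P t m P.natDegree le_rfl]
  apply (Kn S ρ hρ O).sum_mem
  intro l _
  refine (Kn S ρ hρ O).mul_mem ((Kn S ρ hρ O).mul_mem (natCast_mem _ _) (hF l)) ((Kn S ρ hρ O).pow_mem ?_ _)
  exact (dg_neg_le t hρ).trans ht

/-- coefficients common to the types -/
theorem coeff_common {P P' : Polynomial (QS S)} {t : QS S} {ρ : ℝ}
    (hF : ∀ l, tc P t l - tc P' t l ∈ Id S ρ) (m : ℕ) : P.coeff m - P'.coeff m ∈ Id S ρ := by
  rw [coeff_tc P t m (max P.natDegree P'.natDegree) (le_max_left _ _),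
    coeff_tc P' t m (max P.natDegree P'.natDegree) (le_max_right _ _), ← Finset.sum_sub_distrib]
  apply (Id S ρ).sum_mem
  intro l _
  have e : (l.choose m : QS S) * tc P t l * (-t) ^ (l - m) - (l.choose m : QS S) * tc P' t l * (-t) ^ (l - m) =
      ((l.choose m : QS S) * (-t) ^ (l - m)) * (tc P t l - tc P' t l) := by ring
  rw [e]
  exact (Id S ρ).mul_mem_left _ (hF l)

/-- **THE POLYNOMIAL IS A LABEL.** -/
theorem lab_coeff [Nonempty ι] {O : S.L} {ξ : ι → S.L} (hL : NL O ξ) (P : ι → Polynomial (QS S))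
    (hP : ∀ i, P i ∈ PU (ξ i)) {t : QS S} {ρ : ℝ} (hρ : ρ ≤ 1) (ht : dg t ρ ≤ O)
    (hF : ∀ i l, dg (tc (P i) t l) ρ ≤ O) (hFF : ∀ i i' l, tc (P i) t l - tc (P i') t l ∈ Id S ρ) (i : ι) (m : ℕ) :
    dg ((P i).coeff m) ρ = ⊥ := by
  apply hL
  · exact coeff_known hρ ht (hF i) m
  · intro i'
    rw [dg_eq_of_sub_mem (coeff_common (hFF i i') m) le_rfl hρ]
    exact (QS.dg_mono _ hρ).trans (hP i' m)

/-- the function is a polynomial in the time, with coefficients of rate zero -/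
theorem lab_poly [Nonempty ι] {O : S.L} {ξ : ι → S.L} (hL : NL O ξ) (P : ι → Polynomial (QS S))
    (hP : ∀ i, P i ∈ PU (ξ i)) {t : QS S} {ρ : ℝ} (hρ0 : 0 ≤ ρ) (hρ : ρ ≤ 1) (ht : dg t ρ ≤ O)
    (hF : ∀ i l, dg (tc (P i) t l) ρ ≤ O) (hFF : ∀ i i' l, tc (P i) t l - tc (P i') t l ∈ Id S ρ) {D : ℕ}
    (hD : ∀ i, (P i).natDegree ≤ D) (i : ι) :
    ∃ c : ℕ → QS S, (∀ m, dg (c m) 1 ≤ ⊥) ∧ (P i).eval t - ∑ m ∈ Finset.range (D + 1), c m * t ^ m ∈ Id S ρ := by
  have h1 : ∀ m, ∃ c : QS S, dg c 1 ≤ ⊥ ∧ (P i).coeff m - c ∈ Id S ρ := by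
    intro m
    obtain ⟨c, hc, hc'⟩ := exists_round ((P i).coeff m) hρ0 hρ
    exact ⟨c, hc.trans (lab_coeff hL P hP hρ ht hF hFF i m).le, hc'⟩
  choose c hc hc' using h1
  refine ⟨c, hc, ?_⟩
  rw [Polynomial.eval_eq_sum_range' (Nat.lt_succ_of_le (hD i)), ← Finset.sum_sub_distrib]
  apply (Id S ρ).sum_mem
  intro m _
  rw [← sub_mul]
  exact (Id S ρ).mul_mem_right _ (hc' m)

/-- without relations this is impossible -/
theorem no_lab_poly {t y : QS S} {ρ : ℝ} (hρ : 0 < ρ) {D : ℕ} (hD : 1 ≤ D) (hN : NR D ![t, y] ⊥ ρ) (c : ℕ → QS S)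
    (hc : ∀ m, dg (c m) 1 ≤ ⊥) (h0 : y - ∑ m ∈ Finset.range (D + 1), c m * t ^ m ∈ Id S ρ) : False := by
  classical
  obtain ⟨Θ, hΘ⟩ : ∃ Θ : MvPolynomial (Fin 2) (QS S), Θ = MvPolynomial.X 1 -
      ∑ m ∈ Finset.range (D + 1), MvPolynomial.monomial (Finsupp.single (0 : Fin 2) m) (c m) := ⟨_, rfl⟩
  have h1 : Θ.totalDegree ≤ D := by
    rw [hΘ]
    refine (MvPolynomial.totalDegree_sub _ _).trans (max_le ?_ ?_)
    · refine (MvPolynomial.totalDegree_monomial_le _ _).trans ?_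
      rw [Finsupp.sum_single_index rfl]
      exact hD
    · refine (MvPolynomial.totalDegree_finsetSum _ _).trans ?_
      apply Finset.sup_le
      intro m hm
      refine (MvPolynomial.totalDegree_monomial_le _ _).trans ?_
      rw [Finsupp.sum_single_index rfl]
      exact Nat.lt_succ_iff.mp (Finset.mem_range.mp hm)
  have h2 : Θ ∈ PK (⊥ : S.L) := by
    rw [hΘ]
    refine (PK _).sub_mem (X_mem _ _) ((PK _).sum_mem fun m _ => monomial_mem _ (hc m))
  have h3 : MvPolynomial.eval ![t, y] Θ ∈ Id S ρ := by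
    rw [hΘ, map_sub, MvPolynomial.eval_X, map_sum]
    have h4 : ∀ m, MvPolynomial.eval ![t, y] (MvPolynomial.monomial (Finsupp.single (0 : Fin 2) m) (c m)) =
        c m * t ^ m := by
      intro m
      rw [MvPolynomial.eval_monomial]
      congr 1
      rw [Finsupp.prod_single_index]
      · rfl
      · exact pow_zero _
    rw [Finset.sum_congr rfl fun m _ => h4 m]
    exact h0
  have h5 := hN Θ h1 h2 h3 (Finsupp.single 1 1)
  have h6 : Θ.coeff (Finsupp.single 1 1) = 1 := by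
    rw [hΘ, MvPolynomial.coeff_sub, MvPolynomial.coeff_X, MvPolynomial.coeff_sum]
    have h7 : ∑ m ∈ Finset.range (D + 1), (MvPolynomial.monomial (Finsupp.single (0 : Fin 2) m) (c m)).coeff
        (Finsupp.single 1 1) = 0 := by
      apply Finset.sum_eq_zero
      intro m _
      rw [MvPolynomial.coeff_monomial, if_neg]
      intro h8
      have h9 := DFunLike.congr_fun h8 (1 : Fin 2)
      simp at h9
    rw [h7, sub_zero, if_pos rfl]
  rw [h6] at h5
  exact one_notMem_Id hρ h5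

/-- **K IS AN INTEGER**: not all derivatives up to the degree are known to the point -/
theorem no_all_known [Nonempty ι] {O : S.L} {ξ : ι → S.L} (hL : NL O ξ) (P : ι → Polynomial (QS S))
    (hP : ∀ i, P i ∈ PU (ξ i)) {t y : QS S} (hy : ∀ i, (P i).eval t = y) {D : ℕ} (hD1 : 1 ≤ D)
    (hD : ∀ i, (P i).natDegree ≤ D) {ρ : ℝ} (hρ0 : 0 < ρ) (hρ1 : ρ ≤ 1) (ht : dg t ρ ≤ O)
    (hF : ∀ i l, dg (tc (P i) t l) ρ ≤ O) (hFF : ∀ i i' l, tc (P i) t l - tc (P i') t l ∈ Id S ρ)
    (hN : NR D ![t, y] ⊥ ρ) : False := by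
  obtain ⟨i0⟩ := ‹Nonempty ι›
  have : Nonempty ι := ⟨i0⟩
  obtain ⟨c, hc1, hc2⟩ := lab_poly hL P hP hρ0.le hρ1 ht hF hFF hD i0
  rw [hy i0] at hc2
  exact no_lab_poly hρ0 hD1 hN c hc1 hc2

end

end Pool.Agent.Helper10.JET
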