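import Pool.Agent.Helper10.JET.Lab

/-! Corners with one unit direction: the derivatives of order `m` less than the lowest weight `w` are known to the
point, up to the level `(w - m) s`, by the box of scale `s`; the curve of a zoom. -/

set_option autoImplicit false

namespace Pool.Agent.Helper10.JET

open Finset Filter Topology Pool.Agent.Helper69.RK Pool.Agent.Helper31.EC Pool.Agent.Helper31.EC.Sp
open Pool.Agent.Helper31.EC.QS Pool.Agent.Helper57.TA Pool.Agent.Helper5.DO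

noncomputable section

variable {S : Sp} {ι : Type}

theorem tc_sub (P Q : Polynomial (QS S)) (t : QS S) (m : ℕ) : tc (P - Q) t m = tc P t m - tc Q t m := by
  unfold tc
  rw [map_sub, Polynomial.eval_sub]

theorem tc_known {A : S.L} {P : Polynomial (QS S)} (hP : P ∈ PU A) {t : QS S} (ht : dg t 1 ≤ A) (m : ℕ) :
    dg (tc P t m) 1 ≤ A := PU_eval (PU_hasse hP m) ht

/-- digits of the time beyond the level `s` are full over the curve and the box -/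
theorem full_beyond {ξ β : S.L} {t : QS S} (ht : h (dg t 1) ξ = 1) {s : ℝ} (hs0 : 0 ≤ s)
    (hβ : β ≤ ξ ⊔ dg t s) : 1 - s ≤ h (dg t 1) ((ξ ⊔ β) ⊔ dg t s) := by
  have h1 : h (dg t 1) (ξ ⊔ dg t s) ≤ h (dg t 1) ((ξ ⊔ β) ⊔ dg t s) := by
    apply h_anti
    exact sup_le (sup_le le_sup_left hβ) le_sup_right
  have h2 := h_triangle (dg t 1) (dg t s) ξ
  have h3 : h (dg t s) ξ ≤ s := (h_le_H _ _).trans (H_dg_le t hs0)
  have h4 : h (dg t 1) (dg t s ⊔ ξ) = h (dg t 1) (ξ ⊔ dg t s) := by rw [sup_comm]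
  rw [ht, h4] at h2
  linarith

/-- **NEAR WINDOWS.** -/
theorem near {ξ β : S.L} {t : QS S} (ht : h (dg t 1) ξ = 1) {s : ℝ} (hs0 : 0 ≤ s) (hs1 : s < 1)
    (hβ : β ≤ ξ ⊔ dg t s) {P b : Polynomial (QS S)} (hP : P ∈ PU ξ) (hb : b ∈ PU β) {ρ : ℝ} (hρ : ρ ≤ 1)
    (h0 : P.eval t - b.eval t ∈ Id S ρ) (m : ℕ) : tc P t m - tc b t m ∈ Id S (ρ - m * s) := by
  rw [← tc_sub]
  apply hasse_small (A := ξ ⊔ β) (P - b) t _ hs0 hs1 (full_beyond ht hs0 hβ) hρ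
  · rw [Polynomial.eval_sub]
    exact h0
  · exact (PU _).sub_mem (PU_mono le_sup_left hP) (PU_mono le_sup_right hb)

/-- BOX of scale `s` in the one-space form: `y` is a polynomial in the time with coefficients known to the box, up to
the level `ρ` -/
def Bx (β : S.L) (t y : QS S) (ρ : ℝ) : Prop := ∃ b : Polynomial (QS S), b ∈ PU β ∧ y - b.eval t ∈ Id S ρ

/-- derivatives along the curve are known to the point -/
theorem near_known {ξ β O : S.L} {t y : QS S} (ht : h (dg t 1) ξ = 1) (htO : dg t 1 ≤ O) {s : ℝ} (hs0 : 0 ≤ s)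
    (hs1 : s < 1) (hβ : β ≤ ξ ⊔ dg t s) (hβO : β ≤ O) {P : Polynomial (QS S)} (hP : P ∈ PU ξ) (hy : P.eval t = y)
    {ρ : ℝ} (hρ : ρ ≤ 1) (h0 : Bx β t y ρ) (m : ℕ) {κ : ℝ} (hκ : κ ≤ ρ - m * s) (hκ1 : κ ≤ 1) :
    dg (tc P t m) κ ≤ O := by
  obtain ⟨b, hb, hb'⟩ := h0
  rw [← hy] at hb'
  rw [dg_eq_of_sub_mem (near ht hs0 hs1 hβ hP hb hρ hb' m) hκ hκ1]
  exact (QS.dg_mono _ hκ1).trans (tc_known (PU_mono hβO hb) htO m)

/-- derivatives along the curves are common to the types -/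
theorem near_common {ξ ξ' β : S.L} {t y : QS S} (ht : h (dg t 1) ξ = 1) (ht' : h (dg t 1) ξ' = 1) {s : ℝ}
    (hs0 : 0 ≤ s) (hs1 : s < 1) (hβ : β ≤ ξ ⊔ dg t s) (hβ' : β ≤ ξ' ⊔ dg t s) {P P' : Polynomial (QS S)}
    (hP : P ∈ PU ξ) (hP' : P' ∈ PU ξ') (hy : P.eval t = y) (hy' : P'.eval t = y)
    {ρ : ℝ} (hρ : ρ ≤ 1) (h0 : Bx β t y ρ) (m : ℕ) {κ : ℝ} (hκ : κ ≤ ρ - m * s) :
    tc P t m - tc P' t m ∈ Id S κ := by
  obtain ⟨b, hb, hb'⟩ := h0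
  have h1 := near ht hs0 hs1 hβ hP hb hρ (by rw [hy]; exact hb') m
  have h2 := near ht' hs0 hs1 hβ' hP' hb hρ (by rw [hy']; exact hb') m
  have h3 := (Id S _).sub_mem h1 h2
  rw [sub_sub_sub_cancel_right] at h3
  exact Id_mono hκ h3

/-- **K IS AN INTEGER**: if the curves have no derivatives of order `> w` then `w` is a natural number -/
theorem weight_nat [Nonempty ι] {O : S.L} {ξ : ι → S.L} (hL : NL O ξ) (P : ι → Polynomial (QS S))
    (hP : ∀ i, P i ∈ PU (ξ i)) {t y : QS S} (hy : ∀ i, (P i).eval t = y) (htO : dg t 1 ≤ O)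
    (ht : ∀ i, h (dg t 1) (ξ i) = 1) {D : ℕ} (hD1 : 1 ≤ D) (hD : ∀ i, (P i).natDegree ≤ D) {w s : ℝ} (hw : 0 < w)
    (hs0 : 0 < s) (hs1 : s < 1) (hws : w * s ≤ 1) {β : S.L} (hβO : β ≤ O) (hβ : ∀ i, β ≤ ξ i ⊔ dg t s)
    (hB : Bx β t y (w * s)) {κ : ℝ} (hκ0 : 0 < κ) (hκ1 : κ ≤ 1)
    (hdeg : ∀ i (l : ℕ), w < l → tc (P i) t l ∈ Id S κ)
    (hN : ∀ ρ : ℝ, 0 < ρ → ρ ≤ κ → NR D ![t, y] ⊥ ρ) : ∃ K : ℕ, w = K := by
  by_contra hc
  push Not at hc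
  -- the distance to the integers
  obtain ⟨θ, hθ⟩ : ∃ θ : ℝ, θ = (w - ⌊w⌋₊) * s := ⟨_, rfl⟩
  have hfl : (⌊w⌋₊ : ℝ) < w := lt_of_le_of_ne (Nat.floor_le hw.le) (fun h => hc _ h.symm)
  have hθ0 : 0 < θ := by rw [hθ]; exact mul_pos (by linarith) hs0
  obtain ⟨ρ, hρ⟩ : ∃ ρ : ℝ, ρ = min θ κ := ⟨_, rfl⟩
  have hρ0 : 0 < ρ := by rw [hρ]; exact lt_min hθ0 hκ0
  have hρκ : ρ ≤ κ := by rw [hρ]; exact min_le_right _ _
  have hρθ : ρ ≤ θ := by rw [hρ]; exact min_le_left _ _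
  have hρ1 : ρ ≤ 1 := hρκ.trans hκ1
  have hlow : ∀ l : ℕ, ¬ w < l → ρ ≤ w * s - l * s := by
    intro l hl
    have h1 : (l : ℝ) ≤ ⌊w⌋₊ := by
      have h2 : l ≤ ⌊w⌋₊ := Nat.le_floor (not_lt.mp hl)
      exact_mod_cast h2
    have h3 : θ ≤ w * s - l * s := by
      rw [hθ, sub_mul]
      have := mul_le_mul_of_nonneg_right h1 hs0.le
      linarith
    exact hρθ.trans h3
  apply no_all_known hL P hP hy hD1 hD hρ0 hρ1 ((QS.dg_mono _ hρ1).trans htO) _ _ (hN ρ hρ0 hρκ)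
  · intro i l
    by_cases hl : w < l
    · rw [dg_of_mem_Id (hdeg i l hl) hρκ hρ1]
      exact bot_le
    · exact near_known (ht i) htO hs0.le hs1 (hβ i) hβO (hP i) (hy i) hws hB l (hlow l hl) hρ1
  · intro i i' l
    by_cases hl : w < l
    · exact Id_mono hρκ ((Id S κ).sub_mem (hdeg i l hl) (hdeg i' l hl))
    · exact near_common (ht i) (ht i') hs0.le hs1 (hβ i) (hβ i') (hP i) (hP i') (hy i) (hy i') hws hB l (hlow l hl)

end

end Pool.Agent.Helper10.JET
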