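import Pool.Agent.Helper31.EC.Uns
import Pool.Agent.Helper57.TA.Top

/-! Flat stretches: an information of small entropy is almost independent of the new information of one of many
consecutive stretches of an increasing family. With the scale invariance of the derivative of highest order this gives
its independence of the point. -/

set_option autoImplicit false

namespace Pool.Agent.Helper10.JET

open Finset Filter Topology Pool.Agent.Helper69.RK Pool.Agent.Helper31.EC Pool.Agent.Helper31.EC.Sp
open Pool.Agent.Helper31.EC.QS Pool.Agent.Helper57.TA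

noncomputable section

/-- the informations of the stretches add up -/
theorem sum_stretch {L : Type*} [PM L] (a : L) (β : ℕ → L) (hβ : Monotone β) (N : ℕ) :
    ∑ j ∈ Finset.range N, I a (β (j + 1)) (β j) = h a (β 0) - h a (β N) := by
  induction N with
  | zero => simp
  | succ N ih =>
    rw [Finset.sum_range_succ, ih, I_eq, sup_eq_left.mpr (hβ (Nat.le_succ N))]
    ring

/-- **FLAT STRETCH.** -/
theorem exists_flat {L : Type*} [PM L] (a : L) (β : ℕ → L) (hβ : Monotone β) {N : ℕ} (hN : 0 < N) :
    ∃ j < N, I a (β (j + 1)) (β j) ≤ h a (β 0) / N := by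
  by_contra hc
  push Not at hc
  have h1 : ∑ _j ∈ Finset.range N, h a (β 0) / N < ∑ j ∈ Finset.range N, I a (β (j + 1)) (β j) := by
    apply Finset.sum_lt_sum_of_nonempty ⟨0, Finset.mem_range.mpr hN⟩
    intro j hj
    exact hc j (Finset.mem_range.mp hj)
  rw [sum_stretch a β hβ, Finset.sum_const, Finset.card_range, nsmul_eq_mul] at h1
  have hN' : (0 : ℝ) < N := by exact_mod_cast hN
  have h2 : (N : ℝ) * (h a (β 0) / N) = h a (β 0) := by field_simp
  rw [h2] at h1
  have h3 : 0 ≤ h a (β N) := h_nonneg _ _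
  linarith

/-- finitely many informations at once -/
theorem exists_flat_fam {L : Type*} [PM L] {ι : Type} [Fintype ι] (a : ι → L) (β : ℕ → L) (hβ : Monotone β) {N : ℕ}
    (hN : 0 < N) : ∃ j < N, ∀ i, I (a i) (β (j + 1)) (β j) ≤ (∑ i, h (a i) (β 0)) / N := by
  by_contra hc
  push Not at hc
  have h1 : ∑ _j ∈ Finset.range N, (∑ i, h (a i) (β 0)) / N <
      ∑ j ∈ Finset.range N, ∑ i, I (a i) (β (j + 1)) (β j) := by
    apply Finset.sum_lt_sum_of_nonempty ⟨0, Finset.mem_range.mpr hN⟩
    intro j hj
    obtain ⟨i, hi⟩ := hc j (Finset.mem_range.mp hj)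
    refine hi.trans_le ?_
    exact Finset.single_le_sum (f := fun i => I (a i) (β (j + 1)) (β j)) (fun i _ => I_nonneg _ _ _)
      (Finset.mem_univ i)
  rw [Finset.sum_comm, Finset.sum_const, Finset.card_range, nsmul_eq_mul] at h1
  have hN' : (0 : ℝ) < N := by exact_mod_cast hN
  have h2 : (N : ℝ) * ((∑ i, h (a i) (β 0)) / N) = ∑ i, h (a i) (β 0) := by field_simp
  rw [h2] at h1
  have h3 : ∑ i, ∑ j ∈ Finset.range N, I (a i) (β (j + 1)) (β j) ≤ ∑ i, h (a i) (β 0) := by
    apply Finset.sum_le_sum
    intro i _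
    rw [sum_stretch (a i) β hβ]
    have h4 : 0 ≤ h (a i) (β N) := h_nonneg _ _
    linarith
  linarith

variable {S : Sp}

/-- first `κ` digits of finitely many functions: for every number `N` of stretches of an increasing family there is one
which gives at most `κ / N` of information on each of them -/
theorem flat_digits {ι : Type} [Fintype ι] (a : ι → QS S) {κ : ℝ} (hκ : 0 ≤ κ) (β : ℕ → S.L) (hβ : Monotone β) {N : ℕ}
    (hN : 0 < N) : ∃ j < N, ∀ i, I (dg (a i) κ) (β (j + 1)) (β j) ≤ Fintype.card ι * κ / N := by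
  obtain ⟨j, hj, h1⟩ := exists_flat_fam (fun i => dg (a i) κ) β hβ hN
  refine ⟨j, hj, fun i => (h1 i).trans ?_⟩
  have hN' : (0 : ℝ) < N := by exact_mod_cast hN
  apply div_le_div_of_nonneg_right _ hN'.le
  calc ∑ i, h (dg (a i) κ) (β 0) ≤ ∑ _i : ι, κ :=
        Finset.sum_le_sum fun i _ => (h_le_H _ _).trans (H_dg_le _ hκ)
    _ = Fintype.card ι * κ := by rw [Finset.sum_const, nsmul_eq_mul]; rfl

end

end Pool.Agent.Helper10.JET
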