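import Pool.Agent.Helper10.JET.Spn

/-! Corners with one unit direction: SPAN with copies, on events. Two copies of the system over finitely many functions
of the point have, on an event of positive probability, curves whose derivatives of highest order differ by a unit. -/

set_option autoImplicit false

namespace Pool.Agent.Helper10.JET

open Finset Filter Topology Pool.Agent.Helper69.RK Pool.Agent.Helper31.EC Pool.Agent.Helper31.EC.Sp
open Pool.Agent.Helper31.EC.QS Pool.Agent.Helper57.TA Pool.Agent.Helper5.DO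

noncomputable section

variable {S : Sp} {ι : Type}

theorem res_res {Ω : Type} (μ : Ω → ℝ) (c : ℝ) (E E' : Ω → Prop) :
    res (fun ω => c * res μ E ω) E' = fun ω => c * res μ (fun ω => E ω ∧ E' ω) ω := by
  funext ω
  by_cases h2 : E' ω
  · rw [res_pos _ _ _ h2]
    by_cases h3 : E ω
    · rw [res_pos _ _ _ h3, res_pos μ (fun ω => E ω ∧ E' ω) ω ⟨h3, h2⟩]
    · rw [res_neg _ _ _ h3, res_neg μ (fun ω => E ω ∧ E' ω) ω (fun h => h3 h.1)]
  · rw [res_neg _ _ _ h2, res_neg μ (fun ω => E ω ∧ E' ω) ω (fun h => h2 h.2), mul_zero]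

theorem pb_and (F : FSp) (E E' : F.Ω → Prop) : F.pb E * (F.rest E).pb E' ≤ F.pb (fun ω => E ω ∧ E' ω) := by
  by_cases h0 : F.pb E = 0
  · rw [h0, zero_mul]
    exact F.pb_nonneg _
  · have e1 : (F.rest E).pb E' = ∑ ω : F.Ω, res (F.restμ E) E' ω := rfl
    have e2 : F.pb (fun ω => E ω ∧ E' ω) = ∑ ω, res F.μ (fun ω => E ω ∧ E' ω) ω := rfl
    rw [e1, e2, F.restμ_eq E h0, res_res, ← Finset.mul_sum]
    apply le_of_eq
    field_simp

theorem pr_and_pos {E A : ∀ k, (S.F k).Ω → Prop} (hE : 0 < ul (S.pr E)) (hA : 0 < ul ((S.rest E).pr A)) :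
    0 < ul (S.pr fun k ω => E k ω ∧ A k ω) := by
  have h1 : ul (fun k => S.pr E k * (S.rest E).pr A k) ≤ ul (S.pr fun k ω => E k ω ∧ A k ω) :=
    ul_mono ((UB_pr E).mul (UB_pr (S := S.rest E) A)) (UB_pr _)
      (Eventually.of_forall fun k => pb_and (S.F k) (E k) (A k))
  rw [ul_mul (UB_pr E) (UB_pr (S := S.rest E) A)] at h1
  exact (mul_pos hE hA).trans_le h1

/-- a function which is a unit on no event is small on a piece of every event -/
theorem small_piece {γ : TR S} (hx : ∀ (E : ∀ k, (S.F k).Ω → Prop) (hE : 0 < ul (S.pr E)),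
      ¬ IsUnit (QS.rest E hE (QS.mk γ))) (E : ∀ k, (S.F k).Ω → Prop) (hE : 0 < ul (S.pr E)) :
    ∃ δ : ℝ, 0 < δ ∧ 0 < ul (S.pr fun k ω => E k ω ∧ |TR.ev γ k ω| < S.dl δ k) := by
  have h1 := hx E hE
  rw [QS.rest_mk, isUnit_mk] at h1
  have h2 : ¬ ∀ δ : ℝ, 0 < δ → Typ (S := S.rest E) (fun k ω => (S.rest E).dl δ k ≤ |TR.ev (TR.rest E γ) k ω|) :=
    fun h => h1 (QS.nd_of_levels h)
  push Not at h2
  obtain ⟨δ, hδ, hn⟩ := h2
  refine ⟨δ, hδ, ?_⟩
  rcases typ_or (S := S.rest E) (fun k ω => (S.rest E).dl δ k ≤ |TR.ev (TR.rest E γ) k ω|) with h3 | h3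
  · exact absurd h3 hn
  · have h4 := pr_and_pos hE h3
    have e : (fun k (ω : (S.F k).Ω) => E k ω ∧ ¬ (S.rest E).dl δ k ≤ |TR.ev (TR.rest E γ) k ω|) =
        fun k ω => E k ω ∧ |TR.ev γ k ω| < S.dl δ k := by
      funext k ω
      rw [not_le]
      rfl
    rwa [e] at h4

/-- finitely many functions which are units on no event are small on one event -/
theorem small_event {J : Type} [Fintype J] (x : J → QS S)
    (hx : ∀ j (E : ∀ k, (S.F k).Ω → Prop) (hE : 0 < ul (S.pr E)), ¬ IsUnit (QS.rest E hE (x j))) :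
    ∃ (δ : ℝ) (E : ∀ k, (S.F k).Ω → Prop) (hE : 0 < ul (S.pr E)), 0 < δ ∧ δ ≤ 1 ∧
      ∀ j, QS.rest E hE (x j) ∈ Id (S.rest E) δ := by
  classical
  choose γ hγ using fun j => mk_surj (x j)
  have key : ∀ s : Finset J, ∃ (δ : ℝ) (E : ∀ k, (S.F k).Ω → Prop), 0 < ul (S.pr E) ∧ 0 < δ ∧ δ ≤ 1 ∧
      ∀ j ∈ s, ∀ k ω, E k ω → |TR.ev (γ j) k ω| ≤ S.dl δ k := by
    intro s
    induction s using Finset.induction_on with
    | empty =>
      exact ⟨1, fun _ _ => True, ul_pr_typ_pos _ Typ_true, one_pos, le_rfl, fun j hj => absurd hj (Finset.notMem_empty j)⟩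
    | insert a s ha ih =>
      obtain ⟨δ, E, hE, hδ0, hδ1, h1⟩ := ih
      obtain ⟨δ', hδ', h2⟩ := small_piece (γ := γ a) (by rw [hγ a]; exact hx a) E hE
      refine ⟨min δ δ', _, h2, lt_min hδ0 hδ', (min_le_left _ _).trans hδ1, fun j hj k ω hω => ?_⟩
      rcases Finset.mem_insert.mp hj with h3 | h3
      · subst h3
        exact hω.2.le.trans (S.dl_anti (min_le_right _ _) k)
      · exact (h1 j h3 k ω hω.1).trans (S.dl_anti (min_le_left _ _) k)
  obtain ⟨δ, E, hE, hδ0, hδ1, h1⟩ := key Finset.univ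
  refine ⟨δ, E, hE, hδ0, hδ1, fun j => ?_⟩
  rw [← hγ j, QS.rest_mk, mk_mem_Id hδ1]
  refine ⟨fun _ _ => True, fun _ => 1, Typ_true, (S.rest E).Sub_const zero_le_one, ?_⟩
  filter_upwards [supp_rest E hE] with k hk ω hω _
  rw [TR.ev_zero, sub_zero, one_mul]
  exact h1 j (Finset.mem_univ j) k ω (hk ω hω).2

/-- NO LABEL on events of extensions -/
def NLX (O : S.L) (ξ : ι → S.L) : Prop :=
  ∀ (W : Sp) (p : Pj W S) (E : ∀ k, (W.F k).Ω → Prop) (hE : 0 < ul (W.pr E)),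
    NL (restL E hE (p.map O)) fun i => restL E hE (p.map (ξ i))

theorem NLX.nle {O : S.L} {ξ : ι → S.L} (h : NLX O ξ) : NLE O ξ := by
  intro E hE
  have h1 := h S (Pj.id S) E hE
  simp only [Pj.id_map] at h1
  exact h1

/-- NO RELATION on events of extensions -/
def NRX (D : ℕ) (t y : QS S) (κ : ℝ) : Prop :=
  ∀ (W : Sp) (p : Pj W S) (E : ∀ k, (W.F k).Ω → Prop) (hE : 0 < ul (W.pr E)) (ρ : ℝ), 0 < ρ → ρ ≤ κ →
    NR D ![QS.rest E hE (p.qs t), QS.rest E hE (p.qs y)] ⊥ ρ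

theorem NRX.nre {D : ℕ} {t y : QS S} {κ : ℝ} (h : NRX D t y κ) (E : ∀ k, (S.F k).Ω → Prop)
    (hE : 0 < ul (S.pr E)) (ρ : ℝ) (h0 : 0 < ρ) (h1 : ρ ≤ κ) : NR D ![QS.rest E hE t, QS.rest E hE y] ⊥ ρ := by
  have h2 := h S (Pj.id S) E hE ρ h0 h1
  rwa [Pj.id_qs, Pj.id_qs] at h2

theorem tc_map {T : Sp} (p : Pj T S) (P : Polynomial (QS S)) (t : QS S) (m : ℕ) :
    tc (P.map p.qs) (p.qs t) m = p.qs (tc P t m) := by
  have h1 : ∀ (T : Sp) (q : Polynomial (QS T)) (x : QS T), tc q x m = (Polynomial.taylor x q).coeff m := by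
    intro T q x
    rw [Polynomial.taylor_coeff]
    rfl
  rw [h1, h1, ← Polynomial.map_taylor, Polynomial.coeff_map]

theorem PU_map {T : Sp} (p : Pj T S) {A : S.L} {P : Polynomial (QS S)} (hP : P ∈ PU A) :
    P.map p.qs ∈ PU (p.map A) := by
  intro m
  rw [Polynomial.coeff_map, p.qs_dg]
  exact p.map_mono (hP m)

/-- **SPAN WITH COPIES.** -/
theorem spn_copies [Fintype ι] [Nonempty ι] {O : S.L} {ξ : ι → S.L} (hL : NLX O ξ) (P : ι → Polynomial (QS S))
    (hP : ∀ i, P i ∈ PU (ξ i)) {t y : QS S} (hy : ∀ i, (P i).eval t = y) (ht : dg t 1 ≤ O) {K D : ℕ} (hKD : 1 ≤ D)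
    (hD : ∀ i, (P i).natDegree ≤ D) {κ : ℝ} (hκ0 : 0 < κ) (hκ1 : κ ≤ 1)
    (hdeg : ∀ i l, K < l → tc (P i) t l ∈ Id S κ)
    (hF : ∀ i l, l < K → dg (tc (P i) t l) κ ≤ O) (hFF : ∀ i i' l, l < K → tc (P i) t l - tc (P i') t l ∈ Id S κ)
    (hN : NRX D t y κ) {σ : Type} [Fintype σ] (F : σ → QS S) (hFO : vd F 1 ≤ O) (C : CQ S F 1) :
    ∃ (i i' : ι) (E : ∀ k, (C.W.F k).Ω → Prop) (hE : 0 < ul (C.W.pr E)),
      IsUnit (QS.rest E hE ((C.p 1).qs (tc (P i') t K) - (C.p 0).qs (tc (P i) t K))) := by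
  by_contra hcon
  push Not at hcon
  obtain ⟨δ1, E, hE, hδ10, hδ11, hsm⟩ := small_event
    (fun j : ι × ι => (C.p 1).qs (tc (P j.2) t K) - (C.p 0).qs (tc (P j.1) t K))
    (fun j E hE => hcon j.1 j.2 E hE)
  obtain ⟨δ, hδ⟩ : ∃ δ, δ = min δ1 κ := ⟨_, rfl⟩
  have hδ0 : 0 < δ := by rw [hδ]; exact lt_min hδ10 hκ0
  have hδκ : δ ≤ κ := by rw [hδ]; exact min_le_right _ _
  have hδδ : δ ≤ δ1 := by rw [hδ]; exact min_le_left _ _
  have hδ1 : δ ≤ 1 := hδκ.trans hκ1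
  obtain ⟨i0⟩ := ‹Nonempty ι›
  have : Nonempty ι := ⟨i0⟩
  -- the functions on the event
  obtain ⟨a, ha⟩ : ∃ a : Fin 2 → ι → QS (C.W.rest E), a = fun u i => QS.rest E hE ((C.p u).qs (tc (P i) t K)) :=
    ⟨_, rfl⟩
  have haa : ∀ i i', a 1 i' - a 0 i ∈ Id (C.W.rest E) δ := by
    intro i i'
    have h1 := hsm (i, i')
    rw [map_sub] at h1
    rw [ha]
    exact Id_mono hδδ h1
  have ha0 : ∀ i i', a 0 i - a 0 i' ∈ Id (C.W.rest E) δ := by
    intro i i'
    have h1 := (Id (C.W.rest E) δ).sub_mem (haa i' i0) (haa i i0)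
    have e : a 1 i0 - a 0 i' - (a 1 i0 - a 0 i) = a 0 i - a 0 i' := by ring
    rwa [e] at h1
  -- the common digits are known to the common functions
  have hmapd : ∀ u i r, dg (a u i) r = restL E hE ((C.p u).map (dg (tc (P i) t K) r)) := by
    intro u i r
    rw [ha]
    show dg (QS.rest E hE ((C.p u).qs (tc (P i) t K))) r = _
    rw [QS.rest_dg, (C.p u).qs_dg]
  have hv : dg (a 0 i0) δ ≤ restL E hE C.v := by
    have h1 : I ((C.p 0).map (dg (tc (P i0) t K) δ)) ((C.p 1).map (dg (tc (P i0) t K) δ)) C.v = 0 :=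
      C.I_two (by decide) _ _
    have h2 := I_rest_zero E hE h1
    rw [← hmapd, ← hmapd] at h2
    have h3 : dg (a 0 i0) δ = dg (a 1 i0) δ := by
      rw [dg_eq_of_sub_mem (haa i0 i0) le_rfl hδ1]
    rw [← h3, I_eq, sub_eq_zero] at h2
    rw [← h_eq_zero_iff, h2]
    exact h_eq_zero_iff.mpr le_sup_left
  have hvO : restL E hE C.v ≤ restL E hE ((C.p 0).map O) := by
    apply restL_mono
    exact (C.p 0).map_mono hFO
  have hknown : ∀ i, dg (a 0 i) δ ≤ restL E hE ((C.p 0).map O) := by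
    intro i
    rw [dg_eq_of_sub_mem (ha0 i i0) le_rfl hδ1]
    exact hv.trans hvO
  -- the polynomials on the event
  obtain ⟨Q, hQ⟩ : ∃ Q : ι → Polynomial (QS (C.W.rest E)), Q = fun i => ((P i).map (C.p 0).qs).map (QS.rest E hE) :=
    ⟨_, rfl⟩
  have hQtc : ∀ i l, tc (Q i) (QS.rest E hE ((C.p 0).qs t)) l = QS.rest E hE ((C.p 0).qs (tc (P i) t l)) := by
    intro i l
    rw [hQ]
    show tc (((P i).map (C.p 0).qs).map (QS.rest E hE)) _ l = _
    rw [tc_rest, tc_map]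
  have hsmall : ∀ {f : QS S}, f ∈ Id S κ → QS.rest E hE ((C.p 0).qs f) ∈ Id (C.W.rest E) δ := by
    intro f hf
    exact Id_mono hδκ (rest_mem_Id E hE hκ1 (((C.p 0).qs_mem_Id hκ1).mpr hf))
  have hF' : ∀ i l, dg (tc (Q i) (QS.rest E hE ((C.p 0).qs t)) l) δ ≤ restL E hE ((C.p 0).map O) := by
    intro i l
    rw [hQtc]
    rcases lt_trichotomy l K with h2 | h2 | h2
    · refine (QS.dg_mono _ hδκ).trans ?_
      rw [QS.rest_dg, (C.p 0).qs_dg]
      exact restL_mono E hE ((C.p 0).map_mono (hF i l h2))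
    · subst h2
      have h3 := hknown i
      rw [ha] at h3
      exact h3
    · rw [dg_of_mem_Id (hsmall (hdeg i l h2)) le_rfl hδ1]
      exact bot_le
  have hFF' : ∀ i i' l, tc (Q i) (QS.rest E hE ((C.p 0).qs t)) l -
      tc (Q i') (QS.rest E hE ((C.p 0).qs t)) l ∈ Id (C.W.rest E) δ := by
    intro i i' l
    rw [hQtc, hQtc]
    rcases lt_trichotomy l K with h2 | h2 | h2
    · rw [← map_sub, ← map_sub]
      exact hsmall (hFF i i' l h2)
    · subst h2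
      have h3 := ha0 i i'
      rw [ha] at h3
      exact h3
    · exact (Id _ _).sub_mem (hsmall (hdeg i l h2)) (hsmall (hdeg i' l h2))
  obtain ⟨c, hc1, hc2⟩ := lab_poly (hL C.W (C.p 0) E hE) Q
    (fun i => by rw [hQ]; exact PU_rest E hE (PU_map (C.p 0) (hP i)))
    hδ0.le hδ1 (t := QS.rest E hE ((C.p 0).qs t)) (by
      refine (QS.dg_mono _ hδ1).trans ?_
      rw [QS.rest_dg, (C.p 0).qs_dg]
      exact restL_mono E hE ((C.p 0).map_mono ht)) hF' hFF' (D := D)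
    (fun i => by
      rw [hQ]
      exact (Polynomial.natDegree_map_le).trans ((Polynomial.natDegree_map_le).trans (hD i))) i0
  have he : (Q i0).eval (QS.rest E hE ((C.p 0).qs t)) = QS.rest E hE ((C.p 0).qs y) := by
    rw [hQ]
    show (((P i0).map (C.p 0).qs).map (QS.rest E hE)).eval _ = _
    rw [Polynomial.eval_map_apply, Polynomial.eval_map_apply, hy i0]
  rw [he] at hc2
  exact no_lab_poly hδ0 hKD (hN C.W (C.p 0) E hE δ hδ0 hδκ) c hc1 hc2

end

end Pool.Agent.Helper10.JET
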