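import Pool.Agent.Helper5.DO.Der
import Pool.Agent.Helper57.TA.Jet

/-! Corners with one unit direction: jets along a curve. A polynomial with known coefficients which is small at a
variable whose digits beyond the level `s` are full has small derivatives, of level `r - m s`. -/

set_option autoImplicit false

namespace Pool.Agent.Helper10.JET

open Finset Filter Topology Pool.Agent.Helper69.RK Pool.Agent.Helper31.EC Pool.Agent.Helper31.EC.Sp
open Pool.Agent.Helper31.EC.QS Pool.Agent.Helper57.TA Pool.Agent.Helper5.DO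

noncomputable section

variable {S : Sp}

/-- digits of a scaled function -/
theorem dg_sc_mul {u r : ℝ} (hu : 0 ≤ u) (hr : r ≤ 1) (f : QS S) : dg (sc S u * f) r ≤ dg f (r - u) := by
  obtain ⟨f, rfl⟩ := mk_surj f
  unfold sc
  rw [← map_mul, dg_mk _ hr, dg_mk _ (by linarith)]
  apply TR_dg_le_dg _ _ _ _ (fun _ _ => True) Typ_true (fun _ => 1) (S.Sub_const zero_le_one)
  refine Eventually.of_forall fun k ω ω' _ _ _ _ _ e => ?_
  rw [TR.ev_mul, TR.ev_mul, ev_scT hu, ev_scT hu, ← mul_sub, abs_mul, abs_of_pos (S.dl_pos _ _), one_mul]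
  have h1 : S.dl r k = S.dl u k * S.dl (r - u) k := by
    rw [← S.dl_add]; congr 1; ring
  rw [h1]
  exact mul_le_mul_of_nonneg_left e (S.dl_pos _ _).le

theorem PU_hasse {A : S.L} {p : Polynomial (QS S)} (hp : p ∈ PU A) (m : ℕ) : Polynomial.hasseDeriv m p ∈ PU A := by
  intro a
  rw [Polynomial.hasseDeriv_coeff]
  refine (Kn S 1 le_rfl A).mul_mem ?_ (hp _)
  exact natCast_mem (Kn S 1 le_rfl A) _

theorem PU_eval {A : S.L} {p : Polynomial (QS S)} (hp : p ∈ PU A) {t : QS S} (ht : dg t 1 ≤ A) :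
    dg (p.eval t) 1 ≤ A := by
  show p.eval t ∈ Kn S 1 le_rfl A
  rw [Polynomial.eval_eq_sum_range]
  exact (Kn S 1 le_rfl A).sum_mem fun m _ => (Kn S 1 le_rfl A).mul_mem (hp m) ((Kn S 1 le_rfl A).pow_mem ht m)

theorem PU_taylor {A : S.L} {p : Polynomial (QS S)} (hp : p ∈ PU A) {t : QS S} (ht : dg t 1 ≤ A) :
    Polynomial.taylor t p ∈ PU A := by
  intro m
  rw [Polynomial.taylor_coeff]
  exact PU_eval (PU_hasse hp m) ht

/-- splitting of a variable whose digits beyond the level `s` are full -/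
theorem exists_split (t : QS S) {s : ℝ} (hs0 : 0 ≤ s) (hs1 : s ≤ 1) :
    ∃ t0 τ : QS S, dg t0 1 ≤ dg t s ∧ t = t0 + sc S s * τ ∧ dg τ 1 ≤ dg t 1 ∧
      ∀ A : S.L, h (dg t 1) (A ⊔ dg t s) ≤ h (dg τ (1 - s)) (A ⊔ dg t0 1) := by
  obtain ⟨t0, ht0, hd⟩ := exists_round t hs0 hs1
  obtain ⟨τ, hτ, hτ1⟩ := exists_div' hs0 hs1 hd
  have h1 : t = t0 + sc S s * τ := by rw [← hτ]; ring
  refine ⟨t0, τ, ht0, h1, hτ1.trans ?_, fun A => ?_⟩
  · exact (dg_sub_le _ _ le_rfl).trans (sup_le le_rfl (ht0.trans (QS.dg_mono _ hs1)))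
  · have h2 : dg t 1 ≤ dg t0 1 ⊔ dg τ (1 - s) := by
      conv_lhs => rw [h1]
      exact (dg_add_le _ _ le_rfl).trans (sup_le_sup_left (dg_sc_mul hs0 le_rfl τ) _)
    have h3 : dg t0 1 ≤ A ⊔ dg t s := ht0.trans le_sup_right
    calc h (dg t 1) (A ⊔ dg t s) ≤ h (dg t0 1 ⊔ dg τ (1 - s)) (A ⊔ dg t s) := h_mono h2
      _ ≤ h (dg τ (1 - s)) (A ⊔ dg t s) := by
          rw [sup_comm, h_sup_right_of_le h3]
      _ ≤ h (dg τ (1 - s)) (A ⊔ dg t0 1) := h_anti (sup_le le_sup_left h3)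

/-- Taylor coefficients of a polynomial which is small at a variable with full digits beyond the level `s` -/
theorem taylor_small (p : Polynomial (QS S)) (t0 τ : QS S) {A : S.L} (hp : p ∈ PU A) {s : ℝ} (hs0 : 0 ≤ s)
    (hs1 : s < 1) (hτ : 1 - s ≤ h (dg τ (1 - s)) (A ⊔ dg t0 1)) {r : ℝ} (hr : r ≤ 1)
    (h0 : p.eval (t0 + sc S s * τ) ∈ Id S r) (m : ℕ) :
    (Polynomial.hasseDeriv m p).eval t0 ∈ Id S (r - m * s) := by
  obtain ⟨q, hq⟩ : ∃ q, q = Polynomial.taylor t0 p := ⟨_, rfl⟩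
  have hqk : q ∈ PU (A ⊔ dg t0 1) := by
    rw [hq]
    exact PU_taylor (PU_mono le_sup_left hp) le_sup_right
  have hqe : q.eval (sc S s * τ) ∈ Id S r := by
    rw [hq, Polynomial.taylor_eval, add_comm]
    exact h0
  have hqm : (Polynomial.hasseDeriv m p).eval t0 = q.coeff m := by
    rw [hq, Polynomial.taylor_coeff]
  rw [hqm]
  by_cases hm : m ≤ q.natDegree
  · obtain ⟨c, hc⟩ : ∃ c : Fin (q.natDegree + 1) → QS S,
        c = fun a : Fin (q.natDegree + 1) => q.coeff (a : ℕ) * sc S s ^ (a : ℕ) := ⟨_, rfl⟩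
    have hce : pe c τ = q.eval (sc S s * τ) := by
      unfold pe
      rw [Polynomial.eval_eq_sum_range, Finset.sum_range, hc]
      apply Finset.sum_congr rfl
      intro a _
      rw [mul_pow]
      ring
    have hck : vd c 1 ≤ A ⊔ dg t0 1 := by
      rw [vd_le, hc]
      intro a
      refine (Kn S 1 le_rfl (A ⊔ dg t0 1)).mul_mem (hqk a) ((Kn S 1 le_rfl (A ⊔ dg t0 1)).pow_mem ?_ _)
      show dg (sc S s) 1 ≤ _
      rw [dg_sc]
      exact bot_le
    have h1 : h (dg τ (1 - s)) (vd c 1) = 1 - s := by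
      apply le_antisymm
      · exact (h_le_H _ _).trans (H_dg_le τ (by linarith))
      · exact hτ.trans (h_anti hck)
    have h2 := top_zero c τ (ℓ := 1 - s) (by linarith) (by linarith) h1 hr (by rw [hce]; exact hqe)
      ⟨m, Nat.lt_succ_of_le hm⟩
    rw [hc] at h2
    have h3 : sc S (m * s) * q.coeff m ∈ Id S r := by
      rw [sc_nat_mul hs0, mul_comm]
      exact h2
    exact mem_of_sc_mul (by positivity) hr h3
  · rw [Polynomial.coeff_eq_zero_of_natDegree_lt (by omega)]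
    exact (Id S _).zero_mem

/-- **JETS.** The derivatives of a polynomial which is small at a variable with full digits beyond the level `s` -/
theorem hasse_small (p : Polynomial (QS S)) (t : QS S) {A : S.L} (hp : p ∈ PU A) {s : ℝ} (hs0 : 0 ≤ s)
    (hs1 : s < 1) (ht : 1 - s ≤ h (dg t 1) (A ⊔ dg t s)) {r : ℝ} (hr : r ≤ 1)
    (h0 : p.eval t ∈ Id S r) (m : ℕ) : (Polynomial.hasseDeriv m p).eval t ∈ Id S (r - m * s) := by
  obtain ⟨t0, τ, ht0, hte, hτ, hfull⟩ := exists_split t hs0 hs1.le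
  have h1 : ∀ j : ℕ, (Polynomial.hasseDeriv j p).eval t0 ∈ Id S (r - j * s) :=
    taylor_small p t0 τ hp hs0 hs1 (ht.trans (hfull A)) hr (by rw [← hte]; exact h0)
  have h2 : (Polynomial.hasseDeriv m p).eval t =
      (Polynomial.taylor t0 (Polynomial.hasseDeriv m p)).eval (sc S s * τ) := by
    rw [Polynomial.taylor_eval, hte, add_comm]
  rw [h2, Polynomial.eval_eq_sum_range]
  apply (Id S _).sum_mem
  intro j _
  rw [Polynomial.taylor_coeff]
  have h3 : Polynomial.hasseDeriv j (Polynomial.hasseDeriv m p) =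
      ((j + m).choose j : Polynomial (QS S)) * Polynomial.hasseDeriv (j + m) p := by
    have h4 := DFunLike.congr_fun (Polynomial.hasseDeriv_comp (R := QS S) j m) p
    rw [LinearMap.comp_apply] at h4
    rw [h4]
    simp
  rw [h3, Polynomial.eval_mul, mul_pow]
  have h5 : sc S s ^ j * (Polynomial.hasseDeriv (j + m) p).eval t0 ∈ Id S (r - m * s) := by
    have h6 := sc_mul_mem (S := S) (u := j * s) (by positivity) (h1 (j + m))
    rw [sc_nat_mul hs0] at h6
    have h7 : (j : ℝ) * s + (r - ((j + m : ℕ) : ℝ) * s) = r - m * s := by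
      push_cast
      ring
    rwa [h7] at h6
  have h6 : Polynomial.eval t0 ((j + m).choose j : Polynomial (QS S)) *
      (Polynomial.hasseDeriv (j + m) p).eval t0 * (sc S s ^ j * τ ^ j) =
      (Polynomial.eval t0 ((j + m).choose j : Polynomial (QS S)) * τ ^ j) *
        (sc S s ^ j * (Polynomial.hasseDeriv (j + m) p).eval t0) := by ring
  rw [h6]
  exact (Id S _).mul_mem_left _ h5

end

end Pool.Agent.Helper10.JET
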